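import Mathlib

/-!
Weak convergence and unbounded functions; compactness along ultrafilters.
(piece DEC of the project MP_55470d_pr of helper95).
-/

set_option autoImplicit false

open MeasureTheory Filter Topology
open scoped ENNReal NNReal BoundedContinuousFunction

namespace Pool.Agent.K7.H89.GMC.DEC

noncomputable section

variable {ι : Type} {F : Filter ι} {μ : ι → ProbabilityMeasure ℝ} {ν : ProbabilityMeasure ℝ}

/-- lower semicontinuity -/
lemma lsc [F.NeBot] (h : Tendsto μ F (𝓝 ν)) {g : ℝ → ℝ} (hg : Continuous g) (h0 : ∀ x, 0 ≤ g x)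
    {B : ℝ} (hB : ∀ᶠ i in F, ∫⁻ x, ENNReal.ofReal (g x) ∂(μ i : Measure ℝ) ≤ ENNReal.ofReal B) :
    ∫⁻ x, ENNReal.ofReal (g x) ∂(ν : Measure ℝ) ≤ ENNReal.ofReal B := by
  have h1 : ∀ k : ℕ, ∫⁻ x, ENNReal.ofReal (min (g x) k) ∂(ν : Measure ℝ) ≤ ENNReal.ofReal B := by
    intro k
    have hc : Continuous fun x => min (g x) k := by fun_prop
    have hb : ∀ x, ‖min (g x) k‖ ≤ k := by
      intro x
      rw [Real.norm_of_nonneg (le_min (h0 x) (Nat.cast_nonneg k))]
      exact min_le_right _ _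
    have h2 := (ProbabilityMeasure.tendsto_iff_forall_integral_tendsto.1 h)
      (BoundedContinuousFunction.ofNormedAddCommGroup _ hc k hb)
    have hi : ∀ m : ProbabilityMeasure ℝ, Integrable (fun x => min (g x) k) (m : Measure ℝ) := by
      intro m
      exact Integrable.of_bound hc.aestronglyMeasurable k (Eventually.of_forall hb)
    have h3 : ∀ m : ProbabilityMeasure ℝ, ∫⁻ x, ENNReal.ofReal (min (g x) k) ∂(m : Measure ℝ) =
        ENNReal.ofReal (∫ x, min (g x) k ∂(m : Measure ℝ)) := by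
      intro m
      rw [ofReal_integral_eq_lintegral_ofReal (hi m)
        (Eventually.of_forall fun x => le_min (h0 x) (Nat.cast_nonneg k))]
    rw [h3]
    have h4 : Tendsto (fun i => ENNReal.ofReal (∫ x, min (g x) k ∂(μ i : Measure ℝ))) F
        (𝓝 (ENNReal.ofReal (∫ x, min (g x) k ∂(ν : Measure ℝ)))) :=
      (ENNReal.continuous_ofReal.tendsto _).comp h2
    refine le_of_tendsto h4 ?_
    filter_upwards [hB] with i hi'
    rw [← h3]
    refine le_trans (lintegral_mono fun x => ?_) hi'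
    exact ENNReal.ofReal_le_ofReal (min_le_left _ _)
  have h5 : ∫⁻ x, ENNReal.ofReal (g x) ∂(ν : Measure ℝ) =
      ⨆ k : ℕ, ∫⁻ x, ENNReal.ofReal (min (g x) k) ∂(ν : Measure ℝ) := by
    rw [← lintegral_iSup]
    · refine lintegral_congr fun x => ?_
      refine le_antisymm ?_ (iSup_le fun k => ENNReal.ofReal_le_ofReal (min_le_left _ _))
      obtain ⟨k, hk⟩ := exists_nat_ge (g x)
      refine le_iSup_of_le k ?_
      rw [min_eq_left hk]
    · intro k
      fun_prop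
    · intro k l hkl x
      exact ENNReal.ofReal_le_ofReal (min_le_min_left _ (by exact_mod_cast hkl))
  rw [h5]
  exact iSup_le h1

/-- truncation -/
def tr (φ : ℝ → ℂ) (M : ℝ) (x : ℝ) : ℂ := ((M / max M ‖φ x‖ : ℝ) : ℂ) * φ x

lemma tr_cont {φ : ℝ → ℂ} (hφ : Continuous φ) {M : ℝ} (hM : 0 < M) : Continuous (tr φ M) := by
  unfold tr
  have h1 : Continuous fun x => M / max M ‖φ x‖ :=
    continuous_const.div (continuous_const.max hφ.norm) fun x =>
      (lt_of_lt_of_le hM (le_max_left _ _)).ne'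
  fun_prop

lemma tr_norm (φ : ℝ → ℂ) {M : ℝ} (hM : 0 < M) (x : ℝ) : ‖tr φ M x‖ ≤ M := by
  have h1 : 0 < max M ‖φ x‖ := lt_of_lt_of_le hM (le_max_left _ _)
  rw [tr, norm_mul, Complex.norm_real, Real.norm_of_nonneg (by positivity), div_mul_eq_mul_div,
    div_le_iff₀ h1]
  exact mul_le_mul_of_nonneg_left (le_max_right _ _) hM.le

lemma tr_sub (φ : ℝ → ℂ) {M : ℝ} (hM : 0 < M) (x : ℝ) : ‖φ x - tr φ M x‖ ≤ ‖φ x‖ ^ 2 / M := by
  have h1 : 0 < max M ‖φ x‖ := lt_of_lt_of_le hM (le_max_left _ _)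
  have h2 : φ x - tr φ M x = ((1 - M / max M ‖φ x‖ : ℝ) : ℂ) * φ x := by
    rw [tr]; push_cast; ring
  have h3 : 0 ≤ 1 - M / max M ‖φ x‖ := by
    rw [sub_nonneg, div_le_one h1]
    exact le_max_left _ _
  rw [h2, norm_mul, Complex.norm_real, Real.norm_of_nonneg h3]
  rcases le_total ‖φ x‖ M with h | h
  · rw [max_eq_left h, div_self hM.ne', sub_self, zero_mul]
    positivity
  · rw [max_eq_right h]
    have h4 : 0 < ‖φ x‖ := lt_of_lt_of_le hM h
    rw [le_div_iff₀ hM]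
    have : (1 - M / ‖φ x‖) * ‖φ x‖ * M = (‖φ x‖ - M) * M := by field_simp
    rw [this]
    nlinarith

lemma int_of_sq {m : Measure ℝ} [IsFiniteMeasure m] {φ : ℝ → ℂ} (hφ : Continuous φ) {B : ℝ}
    (hB : ∫⁻ x, ENNReal.ofReal (‖φ x‖ ^ 2) ∂m ≤ ENNReal.ofReal B) :
    Integrable (fun x => ‖φ x‖ ^ 2) m ∧ Integrable φ m ∧ ∫ x, ‖φ x‖ ^ 2 ∂m ≤ max B 0 := by
  have h1 : Integrable (fun x => ‖φ x‖ ^ 2) m := by
    refine ⟨(by fun_prop : Continuous fun x => ‖φ x‖ ^ 2).aestronglyMeasurable, ?_⟩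
    rw [hasFiniteIntegral_iff_ofReal (Eventually.of_forall fun x => by positivity)]
    exact lt_of_le_of_lt hB ENNReal.ofReal_lt_top
  refine ⟨h1, ?_, ?_⟩
  · refine Integrable.mono' (h1.add (integrable_const 1)) hφ.aestronglyMeasurable
      (Eventually.of_forall fun x => ?_)
    simp only [Pi.add_apply]
    nlinarith [sq_nonneg (‖φ x‖ - 1), norm_nonneg (φ x)]
  · rw [← ENNReal.ofReal_le_ofReal_iff (le_max_right _ _), ofReal_integral_eq_lintegral_ofReal h1
      (Eventually.of_forall fun x => by positivity)]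
    exact hB.trans (ENNReal.ofReal_le_ofReal (le_max_left _ _))

/-- convergence of the integrals of functions with bounded second moments -/
lemma ui [F.NeBot] (h : Tendsto μ F (𝓝 ν)) {φ : ℝ → ℂ} (hφ : Continuous φ) {B : ℝ}
    (hB : ∀ᶠ i in F, ∫⁻ x, ENNReal.ofReal (‖φ x‖ ^ 2) ∂(μ i : Measure ℝ) ≤ ENNReal.ofReal B) :
    Integrable φ (ν : Measure ℝ) ∧
      Tendsto (fun i => ∫ x, φ x ∂(μ i : Measure ℝ)) F (𝓝 (∫ x, φ x ∂(ν : Measure ℝ))) := by
  have hν := lsc h (g := fun x => ‖φ x‖ ^ 2) (by fun_prop) (fun x => by positivity) hB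
  refine ⟨(int_of_sq hφ hν).2.1, ?_⟩
  set B' := max B 0 with hB'
  have key : ∀ (M : ℝ), 0 < M → ∀ m : ProbabilityMeasure ℝ,
      ∫⁻ x, ENNReal.ofReal (‖φ x‖ ^ 2) ∂(m : Measure ℝ) ≤ ENNReal.ofReal B →
      ‖∫ x, φ x ∂(m : Measure ℝ) - ∫ x, tr φ M x ∂(m : Measure ℝ)‖ ≤ B' / M := by
    intro M hM m hm
    obtain ⟨i1, i2, i3⟩ := int_of_sq hφ hm
    have i4 : Integrable (tr φ M) (m : Measure ℝ) :=
      Integrable.of_bound (tr_cont hφ hM).aestronglyMeasurable M
        (Eventually.of_forall (tr_norm φ hM))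
    rw [← integral_sub i2 i4]
    calc ‖∫ x, (φ x - tr φ M x) ∂(m : Measure ℝ)‖ ≤ ∫ x, ‖φ x‖ ^ 2 / M ∂(m : Measure ℝ) :=
          norm_integral_le_of_norm_le (i1.div_const M) (Eventually.of_forall (tr_sub φ hM))
      _ = (∫ x, ‖φ x‖ ^ 2 ∂(m : Measure ℝ)) / M := integral_div _ _
      _ ≤ B' / M := by gcongr
  rw [Metric.tendsto_nhds]
  intro ε hε
  set M := 4 * (B' + 1) / ε with hMd
  have hB0 : 0 ≤ B' := le_max_right _ _
  have hM : 0 < M := by positivity
  have hBM : B' / M < ε / 3 := by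
    rw [hMd, div_div_eq_mul_div, div_lt_div_iff₀ (by positivity) (by norm_num)]
    nlinarith
  have h2 := (ProbabilityMeasure.tendsto_iff_forall_integral_rclike_tendsto ℂ).1 h
    (BoundedContinuousFunction.ofNormedAddCommGroup _ (tr_cont hφ hM) M (tr_norm φ hM))
  have h3 := Metric.tendsto_nhds.1 h2 (ε / 3) (by positivity)
  filter_upwards [hB, h3] with i hi h3i
  have a1 := key M hM (μ i) hi
  have a2 := key M hM ν hν
  have a3 : ‖∫ x, tr φ M x ∂(μ i : Measure ℝ) - ∫ x, tr φ M x ∂(ν : Measure ℝ)‖ < ε / 3 := by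
    rw [← dist_eq_norm]
    exact h3i
  rw [dist_eq_norm]
  have e : ∫ x, φ x ∂(μ i : Measure ℝ) - ∫ x, φ x ∂(ν : Measure ℝ) =
      (∫ x, φ x ∂(μ i : Measure ℝ) - ∫ x, tr φ M x ∂(μ i : Measure ℝ)) +
      (∫ x, tr φ M x ∂(μ i : Measure ℝ) - ∫ x, tr φ M x ∂(ν : Measure ℝ)) -
      (∫ x, φ x ∂(ν : Measure ℝ) - ∫ x, tr φ M x ∂(ν : Measure ℝ)) := by ring
  rw [e]
  calc _ ≤ _ := norm_sub_le _ _
    _ ≤ _ := add_le_add_left (norm_add_le _ _) _
    _ < ε := by linarith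

/-- compactness -/
lemma exists_lim (U : Ultrafilter ℕ) (μ : ℕ → ProbabilityMeasure ℝ) (B : ℝ)
    (hB : ∀ᶠ i in (U : Filter ℕ), ∫⁻ x, ENNReal.ofReal (√|x|) ∂(μ i : Measure ℝ) ≤
      ENNReal.ofReal B) : ∃ ν : ProbabilityMeasure ℝ, Tendsto μ U (𝓝 ν) := by
  set S : Set (ProbabilityMeasure ℝ) :=
    {m | ∫⁻ x, ENNReal.ofReal (√|x|) ∂(m : Measure ℝ) ≤ ENNReal.ofReal B} with hS
  have hcomp : IsCompact (closure S) := by
    refine isCompact_closure_of_isTightMeasureSet ?_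
    rw [isTightMeasureSet_iff_exists_isCompact_measure_compl_le]
    intro ε hε
    rcases eq_or_ne ε ∞ with rfl | hεt
    · exact ⟨∅, isCompact_empty, fun μ _ => le_top⟩
    have he0 : 0 < ε.toReal := ENNReal.toReal_pos hε.ne' hεt
    set R : ℝ := max B 0 / ε.toReal + 1 with hR
    have hR0 : 0 < R := by positivity
    refine ⟨Metric.closedBall 0 (R ^ 2), isCompact_closedBall _ _, ?_⟩
    rintro _ ⟨m, hm, rfl⟩
    have hm' : ∫⁻ x, ENNReal.ofReal (√|x|) ∂(m : Measure ℝ) ≤ ENNReal.ofReal B := hm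
    have h1 : (m : Measure ℝ) (Metric.closedBall 0 (R ^ 2))ᶜ ≤
        (m : Measure ℝ) {x | ENNReal.ofReal R ≤ ENNReal.ofReal (√|x|)} := by
      refine measure_mono fun x hx => ?_
      rw [Set.mem_compl_iff, Metric.mem_closedBall, dist_zero_right, not_le, Real.norm_eq_abs] at hx
      exact ENNReal.ofReal_le_ofReal (Real.le_sqrt_of_sq_le hx.le)
    refine h1.trans ((meas_ge_le_lintegral_div (by fun_prop) (by simpa using hR0)
      ENNReal.ofReal_ne_top).trans ?_)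
    refine ENNReal.div_le_of_le_mul ?_
    refine hm'.trans ?_
    rw [← ENNReal.ofReal_toReal hεt, ← ENNReal.ofReal_mul he0.le]
    refine ENNReal.ofReal_le_ofReal ?_
    rw [hR, mul_add, mul_div_cancel₀ _ he0.ne']
    have := le_max_left B 0
    linarith
  have hmem : closure S ∈ Filter.map μ (U : Filter ℕ) := by
    rw [mem_map]
    filter_upwards [hB] with i hi
    exact subset_closure hi
  obtain ⟨ν, -, hν⟩ := hcomp.ultrafilter_le_nhds (U.map μ) (le_principal_iff.2 hmem)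
  exact ⟨ν, hν⟩

end

end Pool.Agent.K7.H89.GMC.DEC
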