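import Mathlib

/-!
A law on the real line is determined by its Mellin transforms on the line `Re = 1/4`.
(piece DEC of the project MP_55470d_pr of helper95).
-/

set_option autoImplicit false

open MeasureTheory Filter Topology
open scoped ENNReal NNReal

namespace Pool.Agent.K7.H89.GMC.DEC

noncomputable section

/-- `|x|^{1/4 + iτ}`, with the factor `exp (i τ log |x|)` -/
def me (τ : ℝ) (x : ℝ) : ℂ := ((|x| ^ (1 / 4 : ℝ) : ℝ) : ℂ) * Complex.exp ((τ * Real.log |x| : ℝ) * Complex.I)

/-- the odd version -/
def mo (τ : ℝ) (x : ℝ) : ℂ := ((SignType.sign x : ℝ) : ℂ) * me τ x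

lemma norm_me (τ x : ℝ) : ‖me τ x‖ = |x| ^ (1 / 4 : ℝ) := by
  rw [me, norm_mul, Complex.norm_exp_ofReal_mul_I, mul_one, Complex.norm_real,
    Real.norm_of_nonneg (by positivity)]

lemma norm_mo_le (τ x : ℝ) : ‖mo τ x‖ ≤ |x| ^ (1 / 4 : ℝ) := by
  rw [mo, norm_mul, norm_me]
  refine mul_le_of_le_one_left (by positivity) ?_
  rw [Complex.norm_real]
  rcases lt_trichotomy x 0 with h | h | h
  · simp [sign_neg h]
  · simp [h]
  · simp [sign_pos h]

lemma norm_mo (τ x : ℝ) : ‖mo τ x‖ = |x| ^ (1 / 4 : ℝ) := by
  rw [mo, norm_mul, norm_me, Complex.norm_real]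
  rcases lt_trichotomy x 0 with h | h | h
  · simp [sign_neg h]
  · simp [h]
  · simp [sign_pos h]

lemma quarter_sq (x : ℝ) : (|x| ^ (1 / 4 : ℝ)) ^ 2 = √|x| := by
  rw [← Real.rpow_natCast, ← Real.rpow_mul (abs_nonneg x), Real.sqrt_eq_rpow]
  norm_num

lemma me_measurable (τ : ℝ) : Measurable (me τ) := by
  unfold me
  fun_prop

lemma continuous_of_norm {φ : ℝ → ℂ} (h : ContinuousOn φ {0}ᶜ) (hn : ∀ x, ‖φ x‖ = |x| ^ (1 / 4 : ℝ)) :
    Continuous φ := by
  rw [continuous_iff_continuousAt]
  intro x
  by_cases hx : x = 0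
  · subst hx
    have h0 : φ 0 = 0 := by
      rw [← norm_eq_zero, hn]
      simp
    rw [ContinuousAt, h0, tendsto_zero_iff_norm_tendsto_zero]
    simp only [hn]
    have : Continuous fun x : ℝ => |x| ^ (1 / 4 : ℝ) :=
      continuous_abs.rpow_const fun _ => Or.inr (by norm_num)
    have h2 := this.tendsto 0
    simpa using h2
  · exact h.continuousAt (isOpen_compl_singleton.mem_nhds hx)

lemma me_cont (τ : ℝ) : Continuous (me τ) := by
  refine continuous_of_norm ?_ (norm_me τ)
  unfold me
  refine ContinuousOn.mul ?_ ?_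
  · refine Complex.continuous_ofReal.comp_continuousOn ?_
    exact (continuous_abs.rpow_const fun _ => Or.inr (by norm_num)).continuousOn
  · refine Complex.continuous_exp.comp_continuousOn ?_
    refine ContinuousOn.mul (Complex.continuous_ofReal.comp_continuousOn ?_) continuousOn_const
    refine ContinuousOn.mul continuousOn_const ?_
    refine ContinuousOn.log continuous_abs.continuousOn fun x hx => ?_
    simpa using hx

lemma mo_cont (τ : ℝ) : Continuous (mo τ) := by
  refine continuous_of_norm ?_ (norm_mo τ)
  unfold mo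
  refine ContinuousOn.mul ?_ (me_cont τ).continuousOn
  refine Complex.continuous_ofReal.comp_continuousOn ?_
  intro x hx
  refine ContinuousAt.continuousWithinAt ?_
  have hx' : x ≠ 0 := by simpa using hx
  rcases lt_or_gt_of_ne hx' with h | h
  · refine (continuousAt_const (y := (-1 : ℝ))).congr ?_
    filter_upwards [gt_mem_nhds h] with y hy
    simp [sign_neg hy]
  · refine (continuousAt_const (y := (1 : ℝ))).congr ?_
    filter_upwards [lt_mem_nhds h] with y hy
    simp [sign_pos hy]

/-- determination on the positive half-line -/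
lemma pos_part {m m' : Measure ℝ} [IsFiniteMeasure m] [IsFiniteMeasure m']
    (hm : Integrable (fun x => |x| ^ (1 / 4 : ℝ)) m)
    (hm' : Integrable (fun x => |x| ^ (1 / 4 : ℝ)) m')
    (he : ∀ τ, ∫ x, me τ x ∂m = ∫ x, me τ x ∂m') (ho : ∀ τ, ∫ x, mo τ x ∂m = ∫ x, mo τ x ∂m') :
    m.restrict (Set.Ioi 0) = m'.restrict (Set.Ioi 0) := by
  set w : ℝ → ℝ≥0∞ := fun x => ENNReal.ofReal (|x| ^ (1 / 4 : ℝ)) with hw
  have hwm : Measurable w := by fun_prop
  have hfin : ∀ m : Measure ℝ, Integrable (fun x => |x| ^ (1 / 4 : ℝ)) m →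
      IsFiniteMeasure ((m.restrict (Set.Ioi 0)).withDensity w) := by
    intro m hm
    refine isFiniteMeasure_withDensity_ofReal ?_
    exact (hm.restrict).2
  have hchar : ∀ m : Measure ℝ, Integrable (fun x => |x| ^ (1 / 4 : ℝ)) m → ∀ τ : ℝ,
      charFun (((m.restrict (Set.Ioi 0)).withDensity w).map Real.log) τ =
      (∫ x, me τ x ∂m + ∫ x, mo τ x ∂m) / 2 := by
    intro m hm τ
    have i1 : Integrable (me τ) m :=
      hm.mono' (me_measurable τ).aestronglyMeasurable (Eventually.of_forall fun x => (norm_me τ x).le)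
    have i2 : Integrable (mo τ) m :=
      hm.mono' (mo_cont τ).aestronglyMeasurable (Eventually.of_forall fun x => (norm_mo τ x).le)
    rw [charFun_apply_real, integral_map Real.measurable_log.aemeasurable (by
      exact (Continuous.measurable (by fun_prop)).aestronglyMeasurable),
      integral_withDensity_eq_integral_toReal_smul hwm (Eventually.of_forall fun x => by simp [hw]),
      ← integral_add i1 i2, ← integral_div, ← integral_indicator measurableSet_Ioi]
    refine integral_congr_ae (Eventually.of_forall fun x => ?_)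
    rcases lt_trichotomy x 0 with h | h | h
    · rw [Set.indicator_of_notMem (by simpa using h.le)]
      simp [mo, sign_neg h]
    · simp [h, mo, me]
    · rw [Set.indicator_of_mem (by simpa using h)]
      simp only [hw, mo, sign_pos h, me]
      rw [ENNReal.toReal_ofReal (by positivity), Complex.real_smul, abs_of_pos h, SignType.coe_one]
      push_cast
      ring
  have hlog : ((m.restrict (Set.Ioi 0)).withDensity w).map Real.log =
      ((m'.restrict (Set.Ioi 0)).withDensity w).map Real.log := by
    have := hfin m hm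
    have := hfin m' hm'
    refine Measure.ext_of_charFun (funext fun τ => ?_)
    rw [hchar m hm, hchar m' hm', he, ho]
  have hback : ∀ m : Measure ℝ, (((m.restrict (Set.Ioi 0)).withDensity w).map Real.log).map Real.exp =
      (m.restrict (Set.Ioi 0)).withDensity w := by
    intro m
    rw [Measure.map_map Real.measurable_exp Real.measurable_log]
    have h1 : (Real.exp ∘ Real.log) =ᵐ[(m.restrict (Set.Ioi 0)).withDensity w] id := by
      refine (withDensity_absolutelyContinuous _ _).ae_le ?_
      filter_upwards [ae_restrict_mem measurableSet_Ioi] with x hx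
      exact Real.exp_log hx
    rw [Measure.map_congr h1, Measure.map_id]
  have h2 : (m.restrict (Set.Ioi 0)).withDensity w = (m'.restrict (Set.Ioi 0)).withDensity w := by
    rw [← hback m, hlog, hback m']
  have h3 : ∀ m : Measure ℝ, ((m.restrict (Set.Ioi 0)).withDensity w).withDensity
      (fun x => (w x)⁻¹) = m.restrict (Set.Ioi 0) := by
    intro m
    refine withDensity_inv_same hwm ?_ (Eventually.of_forall fun x => by simp [hw])
    filter_upwards [ae_restrict_mem measurableSet_Ioi] with x hx
    have hx' : 0 < x := hx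
    simp only [hw, ne_eq, ENNReal.ofReal_eq_zero, not_le]
    positivity
  rw [← h3 m, h2, h3]

lemma eq_of_mellin {m m' : Measure ℝ} [IsProbabilityMeasure m] [IsProbabilityMeasure m']
    (hm : Integrable (fun x => |x| ^ (1 / 4 : ℝ)) m)
    (hm' : Integrable (fun x => |x| ^ (1 / 4 : ℝ)) m')
    (he : ∀ τ, ∫ x, me τ x ∂m = ∫ x, me τ x ∂m') (ho : ∀ τ, ∫ x, mo τ x ∂m = ∫ x, mo τ x ∂m') :
    m = m' := by
  have hp := pos_part hm hm' he ho
  have hneg : ∀ m : Measure ℝ, ∀ (E : Type) [NormedAddCommGroup E] [NormedSpace ℝ E] (f : ℝ → E),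
      ∫ x, f x ∂(m.map Neg.neg) = ∫ x, f (-x) ∂m := by
    intro m E _ _ f
    exact (Homeomorph.neg ℝ).toMeasurableEquiv.measurableEmbedding.integral_map _
  have hn : (m.map Neg.neg).restrict (Set.Ioi 0) = (m'.map Neg.neg).restrict (Set.Ioi 0) := by
    have hi : ∀ m : Measure ℝ, Integrable (fun x => |x| ^ (1 / 4 : ℝ)) m →
        Integrable (fun x => |x| ^ (1 / 4 : ℝ)) (m.map Neg.neg) := by
      intro m hm
      refine ((Homeomorph.neg ℝ).toMeasurableEquiv.measurableEmbedding.integrable_map_iff).2 ?_
      refine hm.congr (Eventually.of_forall fun x => ?_)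
      simp
    have hme : ∀ τ x, me τ (-x) = me τ x := fun τ x => by simp [me]
    have hmo : ∀ τ x, mo τ (-x) = - mo τ x := fun τ x => by
      simp [mo, hme, Left.sign_neg]
    have := Measure.isProbabilityMeasure_map (μ := m) (f := Neg.neg) (by fun_prop)
    have := Measure.isProbabilityMeasure_map (μ := m') (f := Neg.neg) (by fun_prop)
    refine pos_part (hi m hm) (hi m' hm') (fun τ => ?_) (fun τ => ?_)
    · rw [hneg, hneg]
      simp only [hme, he]
    · rw [hneg, hneg]
      simp only [hmo, integral_neg, ho]
  have hn' : m.restrict (Set.Iio 0) = m'.restrict (Set.Iio 0) := by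
    have h1 : ∀ m : Measure ℝ, ((m.map Neg.neg).restrict (Set.Ioi 0)).map Neg.neg =
        m.restrict (Set.Iio 0) := by
      intro m
      rw [Measure.restrict_map measurable_neg measurableSet_Ioi, Measure.map_map measurable_neg
        measurable_neg]
      have : (Neg.neg ∘ Neg.neg : ℝ → ℝ) = id := by
        funext x
        simp
      rw [this, Measure.map_id]
      congr 1
      ext x
      simp
    rw [← h1 m, hn, h1]
  have h0 : m {0} = m' {0} := by
    have key : ∀ m : Measure ℝ, IsProbabilityMeasure m →
        m {0} = 1 - (m.restrict (Set.Ioi 0) Set.univ + m.restrict (Set.Iio 0) Set.univ) := by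
      intro m hm
      have hu : ({0} : Set ℝ) = (Set.Ioi 0 ∪ Set.Iio 0)ᶜ := by
        ext x
        simp only [Set.mem_singleton_iff, Set.mem_compl_iff, Set.mem_union, Set.mem_Ioi,
          Set.mem_Iio, not_or, not_lt]
        constructor
        · rintro rfl
          simp
        · rintro ⟨a, b⟩
          exact le_antisymm a b
      rw [hu, prob_compl_eq_one_sub (measurableSet_Ioi.union measurableSet_Iio),
        measure_union (Set.disjoint_left.2 fun x hx hx' => by
          simp only [Set.mem_Ioi, Set.mem_Iio] at hx hx'; linarith) measurableSet_Iio]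
      simp
    rw [key m inferInstance, key m' inferInstance, hp, hn']
  have hz : m.restrict {0} = m'.restrict {0} := by
    rw [Measure.restrict_singleton, Measure.restrict_singleton, h0]
  have hall : ∀ m : Measure ℝ, m = m.restrict (Set.Ioi 0) + m.restrict (Set.Iio 0) +
      m.restrict {0} := by
    intro m
    rw [← Measure.restrict_union (Set.disjoint_left.2 fun x hx hx' => by
          simp only [Set.mem_Ioi, Set.mem_Iio] at hx hx'; linarith) measurableSet_Iio,
      ← Measure.restrict_union (Set.disjoint_left.2 fun x hx hx' => by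
          simp only [Set.mem_singleton_iff] at hx'; subst hx'; simp at hx)
        (measurableSet_singleton _)]
    have : (Set.Ioi (0 : ℝ) ∪ Set.Iio 0 ∪ {0}) = Set.univ := by
      ext x
      simp only [Set.mem_union, Set.mem_Ioi, Set.mem_Iio, Set.mem_singleton_iff, Set.mem_univ,
        iff_true]
      rcases lt_trichotomy x 0 with h | h | h
      · exact Or.inl (Or.inr h)
      · exact Or.inr h
      · exact Or.inl (Or.inl h)
    rw [this, Measure.restrict_univ]
  rw [hall m, hp, hn', hz, ← hall m']

end

end Pool.Agent.K7.H89.GMC.DEC
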