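import Pool.Agent.K7.H89.GMC.DEC1
import Pool.Agent.K7.H89.GMC.DEC2

/-!
Multiplicative deconvolution of an asymptotically lognormal independent factor.
(piece DEC of the project MP_55470d_pr of helper95).
-/

set_option autoImplicit false

open MeasureTheory Filter Topology ProbabilityTheory
open scoped ENNReal NNReal

namespace Pool.Agent.K7.H89.GMC.DEC

noncomputable section

/-- the Mellin transform of the lognormal law -/
def GG (v : ℝ) (z : ℂ) : ℂ := Complex.exp (v * (z ^ 2 - z) / 2)

lemma GG_ne (v : ℝ) (z : ℂ) : GG v z ≠ 0 := Complex.exp_ne_zero _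

lemma GG_real (v s : ℝ) : GG v s = ((Real.exp (v * (s ^ 2 - s) / 2) : ℝ) : ℂ) := by
  simp [GG]

lemma norm_cexp_sq (z : ℂ) (l : ℝ) : ‖Complex.exp (z * l)‖ ^ 2 = Real.exp (2 * z.re * l) := by
  rw [Complex.norm_exp, ← Real.exp_nat_mul]
  congr 1
  simp
  ring

/-- the law of the logarithm -/
lemma log_lim {μ : ℕ → ProbabilityMeasure ℝ} {v : ℝ}
    (h : ∀ s : ℝ, -1 < s → s < 1 → Tendsto (fun n => ∫⁻ l, ENNReal.ofReal (Real.exp (s * l))
      ∂(μ n : Measure ℝ)) atTop (𝓝 (ENNReal.ofReal (Real.exp (v * (s ^ 2 - s) / 2)))))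
    {z : ℂ} (hz : |z.re| < 1 / 2) :
    Tendsto (fun n => ∫ l, Complex.exp (z * l) ∂(μ n : Measure ℝ)) atTop (𝓝 (GG v z)) := by
  have hb : ∀ s : ℝ, -1 < s → s < 1 → ∀ᶠ n in atTop, ∫⁻ l, ENNReal.ofReal (Real.exp (s * l))
      ∂(μ n : Measure ℝ) ≤ ENNReal.ofReal (Real.exp (v * (s ^ 2 - s) / 2) + 1) := by
    intro s h1 h2
    refine ((h s h1 h2).eventually (ge_mem_nhds ?_))
    rw [ENNReal.ofReal_lt_ofReal_iff (by positivity)]
    linarith
  refine (Filter.tendsto_iff_ultrafilter _ _ _).2 fun U hU => ?_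
  -- the limit along `U`
  obtain ⟨ν, hν⟩ : ∃ ν : ProbabilityMeasure ℝ, Tendsto μ U (𝓝 ν) := by
    refine exists_lim U μ (1 + (2 * (Real.exp (v * ((1 / 2) ^ 2 - (1 / 2)) / 2) + 1) +
      2 * (Real.exp (v * ((-(1 / 2)) ^ 2 - (-(1 / 2))) / 2) + 1))) ?_
    filter_upwards [hU (hb (1 / 2) (by norm_num) (by norm_num)),
      hU (hb (-(1 / 2)) (by norm_num) (by norm_num))] with n h1 h2
    have hs : ∀ l : ℝ, √|l| ≤ 1 + (2 * Real.exp (1 / 2 * l) + 2 * Real.exp (-(1 / 2) * l)) := by
      intro l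
      have a1 : √|l| ≤ 1 + |l| := by
        rw [Real.sqrt_le_left (by positivity)]
        nlinarith [abs_nonneg l]
      have a2 := Real.add_one_le_exp (1 / 2 * l)
      have a3 := Real.add_one_le_exp (-(1 / 2) * l)
      have a4 := Real.exp_pos (1 / 2 * l)
      have a5 := Real.exp_pos (-(1 / 2) * l)
      rcases abs_cases l with ⟨h, _⟩ | ⟨h, _⟩ <;> rw [h] at a1 ⊢ <;> linarith
    calc ∫⁻ l, ENNReal.ofReal (√|l|) ∂(μ n : Measure ℝ)
        ≤ ∫⁻ l, (1 + (2 * ENNReal.ofReal (Real.exp (1 / 2 * l)) +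
            2 * ENNReal.ofReal (Real.exp (-(1 / 2) * l)))) ∂(μ n : Measure ℝ) := by
          refine lintegral_mono fun l => ?_
          refine (ENNReal.ofReal_le_ofReal (hs l)).trans (le_of_eq ?_)
          rw [ENNReal.ofReal_add (by positivity) (by positivity),
            ENNReal.ofReal_add (by positivity) (by positivity),
            ENNReal.ofReal_mul (by positivity), ENNReal.ofReal_mul (by positivity)]
          simp
      _ = 1 + (2 * ∫⁻ l, ENNReal.ofReal (Real.exp (1 / 2 * l)) ∂(μ n : Measure ℝ) +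
            2 * ∫⁻ l, ENNReal.ofReal (Real.exp (-(1 / 2) * l)) ∂(μ n : Measure ℝ)) := by
          rw [lintegral_add_left (by fun_prop), lintegral_add_left (by fun_prop),
            lintegral_const_mul _ (by fun_prop), lintegral_const_mul _ (by fun_prop)]
          simp
      _ ≤ 1 + (2 * ENNReal.ofReal (Real.exp (v * ((1 / 2) ^ 2 - (1 / 2)) / 2) + 1) +
            2 * ENNReal.ofReal (Real.exp (v * ((-(1 / 2)) ^ 2 - (-(1 / 2))) / 2) + 1)) := by
          gcongr
      _ = _ := by
          rw [ENNReal.ofReal_add (p := 1) (by positivity) (by positivity),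
            ENNReal.ofReal_add (p := 2 * _) (by positivity) (by positivity),
            ENNReal.ofReal_mul (by positivity), ENNReal.ofReal_mul (by positivity)]
          simp
  have hui : ∀ w : ℂ, |w.re| < 1 / 2 → Integrable (fun l : ℝ => Complex.exp (w * l)) (ν : Measure ℝ) ∧
      Tendsto (fun n => ∫ l, Complex.exp (w * l) ∂(μ n : Measure ℝ)) U
        (𝓝 (∫ l, Complex.exp (w * l) ∂(ν : Measure ℝ))) := by
    intro w hw
    rw [abs_lt] at hw
    refine ui hν (by fun_prop) (B := Real.exp (v * ((2 * w.re) ^ 2 - (2 * w.re)) / 2) + 1) ?_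
    filter_upwards [hU (hb (2 * w.re) (by linarith) (by linarith))] with n hn
    simpa only [norm_cexp_sq] using hn
  have hreal : ∀ s : ℝ, |s| < 1 / 2 → complexMGF id (ν : Measure ℝ) s = GG v s := by
    intro s hs
    have h1 := (hui s (by simpa using hs)).2
    have h2 : Tendsto (fun n => ∫ l, Complex.exp ((s : ℂ) * l) ∂(μ n : Measure ℝ)) U
        (𝓝 (GG v s)) := by
      rw [abs_lt] at hs
      have h3 := (h s (by linarith) (by linarith)).mono_left hU
      have h4 := (ENNReal.tendsto_toReal ENNReal.ofReal_ne_top).comp h3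
      rw [ENNReal.toReal_ofReal (Real.exp_pos _).le] at h4
      have h5 := (Complex.continuous_ofReal.tendsto _).comp h4
      rw [GG_real]
      refine h5.congr fun n => ?_
      simp only [Function.comp_apply]
      rw [← integral_eq_lintegral_of_nonneg_ae (Eventually.of_forall fun l => (Real.exp_pos _).le)
        (by fun_prop), ← integral_complex_ofReal]
      refine integral_congr_ae (Eventually.of_forall fun l => ?_)
      push_cast
      rfl
    rw [← tendsto_nhds_unique h1 h2]
    rfl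
  have hsub : Set.Ioo (-(1 / 2) : ℝ) (1 / 2) ⊆ interior (integrableExpSet id (ν : Measure ℝ)) := by
    refine isOpen_Ioo.subset_interior_iff.2 fun s hs => ?_
    have h1 := (hui s (by simpa [abs_lt] using hs)).1
    have h2 := h1.norm
    refine h2.congr (Eventually.of_forall fun l => ?_)
    simp only [id, Complex.norm_exp]
    simp
  have han : AnalyticOnNhd ℂ (complexMGF id (ν : Measure ℝ))
      (Complex.re ⁻¹' Set.Ioo (-(1 / 2) : ℝ) (1 / 2)) :=
    analyticOnNhd_complexMGF.mono fun z hz => hsub hz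
  have hG : AnalyticOnNhd ℂ (GG v) (Complex.re ⁻¹' Set.Ioo (-(1 / 2) : ℝ) (1 / 2)) := by
    refine DifferentiableOn.analyticOnNhd ?_ (isOpen_Ioo.preimage Complex.continuous_re)
    unfold GG
    fun_prop
  have heq : Set.EqOn (complexMGF id (ν : Measure ℝ)) (GG v)
      (Complex.re ⁻¹' Set.Ioo (-(1 / 2) : ℝ) (1 / 2)) := by
    refine AnalyticOnNhd.eqOn_of_preconnected_of_frequently_eq han hG
      ((convex_Ioo _ _).linear_preimage Complex.reLm).isPreconnected
      (z₀ := ((0 : ℝ) : ℂ)) (by simp) ?_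
    have h_real : ∃ᶠ (x : ℝ) in 𝓝[≠] 0, complexMGF id (ν : Measure ℝ) x = GG v x := by
      refine Eventually.frequently ?_
      refine eventually_nhdsWithin_of_eventually_nhds ?_
      filter_upwards [Metric.ball_mem_nhds (0 : ℝ) (by norm_num : (0 : ℝ) < 1 / 2)] with x hx
      exact hreal x (by simpa using hx)
    rw [frequently_iff_seq_forall] at h_real ⊢
    obtain ⟨xs, hx_tendsto, hx_eq⟩ := h_real
    refine ⟨fun n => xs n, ?_, fun n => ?_⟩
    · rw [tendsto_nhdsWithin_iff] at hx_tendsto ⊢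
      constructor
      · rw [tendsto_ofReal_iff]
        exact hx_tendsto.1
      · simpa using hx_tendsto.2
    · simp [hx_eq]
  have h6 := heq (x := z) (by
    rw [abs_lt] at hz
    exact hz)
  have h7 := (hui z hz).2
  rw [← h6]
  exact h7

end

end Pool.Agent.K7.H89.GMC.DEC
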