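import Pool.Agent.K7.H89.GMC.DEC3

/-!
Multiplicative deconvolution of an asymptotically lognormal independent factor: main theorem
(piece DEC of the project MP_55470d_pr of helper95).
-/

set_option autoImplicit false

open MeasureTheory Filter Topology ProbabilityTheory
open scoped ENNReal NNReal

namespace Pool.Agent.K7.H89.GMC.DEC

noncomputable section

lemma me_mul (τ : ℝ) {y : ℝ} (hy : 0 < y) (x : ℝ) :
    me τ (y * x) = Complex.exp ((1 / 4 + τ * Complex.I) * (Real.log y : ℝ)) * me τ x := by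
  rcases eq_or_ne x 0 with rfl | hx
  · simp [me]
  have h1 : |x| ≠ 0 := abs_ne_zero.2 hx
  rw [me, me, abs_mul, abs_of_pos hy, Real.mul_rpow hy.le (abs_nonneg x), Real.log_mul hy.ne' h1,
    Real.rpow_def_of_pos hy]
  push_cast
  rw [show (1 / 4 + (τ : ℂ) * Complex.I) * (Real.log y : ℂ) =
    (Real.log y : ℂ) * (1 / 4) + (τ : ℂ) * Real.log y * Complex.I by ring, Complex.exp_add,
    show (τ : ℂ) * ((Real.log y : ℂ) + Real.log |x|) * Complex.I =
    (τ : ℂ) * Real.log y * Complex.I + (τ : ℂ) * Real.log |x| * Complex.I by ring, Complex.exp_add]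
  ring

lemma mo_mul (τ : ℝ) {y : ℝ} (hy : 0 < y) (x : ℝ) :
    mo τ (y * x) = Complex.exp ((1 / 4 + τ * Complex.I) * (Real.log y : ℝ)) * mo τ x := by
  rw [mo, mo, me_mul τ hy, sign_mul, sign_pos hy]
  simp only [one_mul]
  ring

theorem main (Ω : ℕ → Type) [∀ n, MeasurableSpace (Ω n)] (P : ∀ n, Measure (Ω n))
    [∀ n, IsProbabilityMeasure (P n)] (X Y : ∀ n, Ω n → ℝ) (C v : ℝ)
    (hX : ∀ n, AEMeasurable (X n) (P n)) (hY : ∀ n, AEMeasurable (Y n) (P n))
    (hpos : ∀ n, ∀ᵐ ω ∂P n, 0 < Y n ω) (hind : ∀ n, ProbabilityTheory.IndepFun (X n) (Y n) (P n))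
    (hXC : ∀ n, ∫⁻ ω, ENNReal.ofReal |X n ω| ∂P n ≤ ENNReal.ofReal C)
    (hYs : ∀ s : ℝ, -1 < s → s < 1 → Tendsto (fun n => ∫⁻ ω, ENNReal.ofReal (Y n ω ^ s) ∂P n) atTop
      (𝓝 (ENNReal.ofReal (Real.exp (v * (s ^ 2 - s) / 2)))))
    (hW : ∀ t : ℝ, ∃ c : ℂ, Tendsto (fun n => ∫ ω, Complex.exp
      (((t * (Y n ω * X n ω) : ℝ) : ℂ) * Complex.I) ∂P n) atTop (𝓝 c)) (t : ℝ) :
    ∃ c : ℂ, Tendsto (fun n => ∫ ω, Complex.exp
      (((t * X n ω : ℝ) : ℂ) * Complex.I) ∂P n) atTop (𝓝 c) := by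
  have hLm : ∀ n, AEMeasurable (fun ω => Real.log (Y n ω)) (P n) := fun n => (hY n).log
  have hWm : ∀ n, AEMeasurable (fun ω => Y n ω * X n ω) (P n) := fun n => (hY n).mul (hX n)
  let mX : ℕ → ProbabilityMeasure ℝ := fun n =>
    ⟨(P n).map (X n), Measure.isProbabilityMeasure_map (hX n)⟩
  let mL : ℕ → ProbabilityMeasure ℝ := fun n =>
    ⟨(P n).map (fun ω => Real.log (Y n ω)), Measure.isProbabilityMeasure_map (hLm n)⟩
  let mW : ℕ → ProbabilityMeasure ℝ := fun n =>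
    ⟨(P n).map (fun ω => Y n ω * X n ω), Measure.isProbabilityMeasure_map (hWm n)⟩
  have iX : ∀ n (φ : ℝ → ℂ), Continuous φ → ∫ x, φ x ∂(mX n : Measure ℝ) = ∫ ω, φ (X n ω) ∂P n :=
    fun n φ hφ => integral_map (hX n) hφ.aestronglyMeasurable
  have iL : ∀ n (φ : ℝ → ℂ), Continuous φ → ∫ x, φ x ∂(mL n : Measure ℝ) =
      ∫ ω, φ (Real.log (Y n ω)) ∂P n :=
    fun n φ hφ => integral_map (hLm n) hφ.aestronglyMeasurable
  have iW : ∀ n (φ : ℝ → ℂ), Continuous φ → ∫ x, φ x ∂(mW n : Measure ℝ) =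
      ∫ ω, φ (Y n ω * X n ω) ∂P n :=
    fun n φ hφ => integral_map (hWm n) hφ.aestronglyMeasurable
  have lX : ∀ n (g : ℝ → ℝ≥0∞), Measurable g → ∫⁻ x, g x ∂(mX n : Measure ℝ) =
      ∫⁻ ω, g (X n ω) ∂P n := fun n g hg => lintegral_map' hg.aemeasurable (hX n)
  have lL : ∀ n (g : ℝ → ℝ≥0∞), Measurable g → ∫⁻ x, g x ∂(mL n : Measure ℝ) =
      ∫⁻ ω, g (Real.log (Y n ω)) ∂P n := fun n g hg => lintegral_map' hg.aemeasurable (hLm n)
  have lW : ∀ n (g : ℝ → ℝ≥0∞), Measurable g → ∫⁻ x, g x ∂(mW n : Measure ℝ) =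
      ∫⁻ ω, g (Y n ω * X n ω) ∂P n := fun n g hg => lintegral_map' hg.aemeasurable (hWm n)
  have hsq : Measurable fun x : ℝ => ENNReal.ofReal (√|x|) := by fun_prop
  -- moments of `X`
  have hXs : ∀ n, ∫⁻ ω, ENNReal.ofReal (√|X n ω|) ∂P n ≤ ENNReal.ofReal (1 + max C 0) := by
    intro n
    calc ∫⁻ ω, ENNReal.ofReal (√|X n ω|) ∂P n ≤ ∫⁻ ω, (1 + ENNReal.ofReal |X n ω|) ∂P n := by
          refine lintegral_mono fun ω => ?_
          have a1 : √|X n ω| ≤ 1 + |X n ω| := by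
            rw [Real.sqrt_le_left (by positivity)]
            nlinarith [abs_nonneg (X n ω)]
          refine (ENNReal.ofReal_le_ofReal a1).trans (le_of_eq ?_)
          rw [ENNReal.ofReal_add (by positivity) (by positivity), ENNReal.ofReal_one]
      _ = 1 + ∫⁻ ω, ENNReal.ofReal |X n ω| ∂P n := by
          rw [lintegral_add_left (by fun_prop)]
          simp
      _ ≤ 1 + ENNReal.ofReal (max C 0) := by
          gcongr
          exact (hXC n).trans (ENNReal.ofReal_le_ofReal (le_max_left _ _))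
      _ = _ := by
          rw [ENNReal.ofReal_add (by positivity) (by positivity), ENNReal.ofReal_one]
  have hXs' : ∀ n, ∫⁻ x, ENNReal.ofReal (√|x|) ∂(mX n : Measure ℝ) ≤
      ENNReal.ofReal (1 + max C 0) := fun n => by rw [lX n _ hsq]; exact hXs n
  -- the factor `Y`
  have hL : ∀ z : ℂ, |z.re| < 1 / 2 →
      Tendsto (fun n => ∫ l, Complex.exp (z * l) ∂(mL n : Measure ℝ)) atTop (𝓝 (GG v z)) := by
    intro z hz
    refine log_lim (fun s h1 h2 => ?_) hz
    refine (hYs s h1 h2).congr fun n => ?_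
    rw [lL n _ (by fun_prop)]
    refine lintegral_congr_ae ?_
    filter_upwards [hpos n] with ω hω
    rw [Real.rpow_def_of_pos hω, mul_comm]
  -- moments of `W`
  have hWs : ∀ᶠ n in atTop, ∫⁻ x, ENNReal.ofReal (√|x|) ∂(mW n : Measure ℝ) ≤
      ENNReal.ofReal ((Real.exp (v * ((1 / 2) ^ 2 - (1 / 2)) / 2) + 1) * (1 + max C 0)) := by
    have h0 : ENNReal.ofReal (Real.exp (v * ((1 / 2) ^ 2 - (1 / 2)) / 2)) <
        ENNReal.ofReal (Real.exp (v * ((1 / 2) ^ 2 - (1 / 2)) / 2) + 1) := by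
      rw [ENNReal.ofReal_lt_ofReal_iff (by positivity)]
      linarith
    have h1 := (hYs (1 / 2) (by norm_num) (by norm_num)).eventually (ge_mem_nhds h0)
    filter_upwards [h1] with n hn
    rw [lW n _ hsq, ENNReal.ofReal_mul (by positivity)]
    calc ∫⁻ ω, ENNReal.ofReal (√|Y n ω * X n ω|) ∂P n
        = ∫⁻ ω, ENNReal.ofReal (Y n ω ^ (1 / 2 : ℝ)) * ENNReal.ofReal (√|X n ω|) ∂P n := by
          refine lintegral_congr_ae ?_
          filter_upwards [hpos n] with ω hω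
          rw [← ENNReal.ofReal_mul (by positivity), abs_mul, abs_of_pos hω,
            Real.sqrt_mul hω.le, Real.sqrt_eq_rpow]
      _ = (∫⁻ ω, ENNReal.ofReal (Y n ω ^ (1 / 2 : ℝ)) ∂P n) *
            ∫⁻ ω, ENNReal.ofReal (√|X n ω|) ∂P n := by
          refine lintegral_mul_eq_lintegral_mul_lintegral_of_indepFun'' ?_ ?_ ?_
          · exact ((hY n).pow_const _).ennreal_ofReal
          · exact hsq.comp_aemeasurable (hX n)
          · exact ((hind n).symm).comp (φ := fun y : ℝ => ENNReal.ofReal (y ^ (1 / 2 : ℝ)))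
              (by fun_prop) hsq
      _ ≤ _ := by gcongr; exact hXs n
  -- the limit of `W`
  have cW : ∀ (U : Ultrafilter ℕ) (ν : ProbabilityMeasure ℝ), (U : Filter ℕ) ≤ atTop →
      Tendsto mW U (𝓝 ν) → ∀ t : ℝ, charFun (ν : Measure ℝ) t = (hW t).choose := by
    intro U ν hU hν t
    have h1 := (hW t).choose_spec.mono_left hU
    have hc : Continuous fun x : ℝ => Complex.exp (((t * x : ℝ) : ℂ) * Complex.I) := by fun_prop
    have h2 := (ui hν hc (B := 1) (Eventually.of_forall fun n => by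
      simp only [Complex.norm_exp_ofReal_mul_I]
      simp)).2
    rw [charFun_apply_real]
    refine tendsto_nhds_unique ?_ h1
    have h3 := h2.congr fun n => iW n _ hc
    convert h3 using 3
    push_cast
    rfl
  obtain ⟨W0, hW0⟩ := exists_lim (hyperfilter ℕ) mW _ (Nat.hyperfilter_le_atTop hWs)
  have limW : ∀ φ : ℝ → ℂ, Continuous φ → (∀ x, ‖φ x‖ = |x| ^ (1 / 4 : ℝ)) →
      Tendsto (fun n => ∫ x, φ x ∂(mW n : Measure ℝ)) atTop (𝓝 (∫ x, φ x ∂(W0 : Measure ℝ))) := by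
    intro φ hφ hn
    refine (Filter.tendsto_iff_ultrafilter _ _ _).2 fun U hU => ?_
    obtain ⟨ν, hν⟩ := exists_lim U mW _ (hU hWs)
    have h1 : (ν : Measure ℝ) = W0 := Measure.ext_of_charFun (funext fun t => by
      rw [cW U ν hU hν, cW (hyperfilter ℕ) W0 Nat.hyperfilter_le_atTop hW0])
    rw [← h1]
    refine (ui hν hφ (B := (Real.exp (v * ((1 / 2) ^ 2 - (1 / 2)) / 2) + 1) * (1 + max C 0)) ?_).2
    filter_upwards [hU hWs] with n h2
    simpa only [hn, quarter_sq] using h2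
  -- the Mellin transforms of `X`
  have limX : ∀ (τ : ℝ) (φ : ℝ → ℂ), Continuous φ → (∀ x, ‖φ x‖ = |x| ^ (1 / 4 : ℝ)) →
      (∀ y : ℝ, 0 < y → ∀ x, φ (y * x) =
        Complex.exp ((1 / 4 + τ * Complex.I) * (Real.log y : ℝ)) * φ x) →
      Tendsto (fun n => ∫ x, φ x ∂(mX n : Measure ℝ)) atTop
        (𝓝 ((∫ x, φ x ∂(W0 : Measure ℝ)) / GG v (1 / 4 + τ * Complex.I))) := by
    intro τ φ hφ hn hm
    have hz : |(1 / 4 + τ * Complex.I : ℂ).re| < 1 / 2 := by
      have : (1 / 4 + τ * Complex.I : ℂ).re = 1 / 4 := by simp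
      rw [this]
      norm_num [abs_of_pos]
    have h1 := limW φ hφ hn
    have h2 := hL _ hz
    have h3 := h1.div h2 (GG_ne v _)
    refine h3.congr' ?_
    have h4 : ∀ᶠ n in atTop, ∫ l, Complex.exp ((1 / 4 + τ * Complex.I) * l) ∂(mL n : Measure ℝ) ≠ 0 :=
      h2.eventually_ne (GG_ne v _)
    filter_upwards [h4] with n hn4
    simp only [Pi.div_apply]
    rw [div_eq_iff hn4, iW n φ hφ, iX n φ hφ, iL n _ (by fun_prop), mul_comm]
    have h5 := ((hind n).symm).integral_fun_comp_mul_comp (hY n) (hX n)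
      (f := fun y : ℝ => Complex.exp ((1 / 4 + τ * Complex.I) * (Real.log y : ℝ))) (g := φ)
      (by
        refine Measurable.aestronglyMeasurable ?_
        have := Real.measurable_log
        fun_prop) hφ.aestronglyMeasurable
    rw [← h5]
    refine integral_congr_ae ?_
    filter_upwards [hpos n] with ω hω
    exact hm _ hω _
  -- uniqueness of the limit of `X`
  have limU : ∀ (U : Ultrafilter ℕ) (ν : ProbabilityMeasure ℝ), (U : Filter ℕ) ≤ atTop →
      Tendsto mX U (𝓝 ν) → ∀ φ : ℝ → ℂ, Continuous φ → (∀ x, ‖φ x‖ = |x| ^ (1 / 4 : ℝ)) →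
      Integrable φ (ν : Measure ℝ) ∧
      Tendsto (fun n => ∫ x, φ x ∂(mX n : Measure ℝ)) U (𝓝 (∫ x, φ x ∂(ν : Measure ℝ))) := by
    intro U ν hU hν φ hφ hn
    refine ui hν hφ (B := 1 + max C 0) (Eventually.of_forall fun n => ?_)
    simpa only [hn, quarter_sq] using hXs' n
  have hint : ∀ (U : Ultrafilter ℕ) (ν : ProbabilityMeasure ℝ), (U : Filter ℕ) ≤ atTop →
      Tendsto mX U (𝓝 ν) → Integrable (fun x => |x| ^ (1 / 4 : ℝ)) (ν : Measure ℝ) := by
    intro U ν hU hν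
    refine (limU U ν hU hν (me 0) (me_cont 0) (norm_me 0)).1.norm.congr
      (Eventually.of_forall fun x => ?_)
    exact norm_me 0 x
  obtain ⟨X0, hX0⟩ := exists_lim (hyperfilter ℕ) mX _ (Eventually.of_forall hXs')
  have hXl : Tendsto mX atTop (𝓝 X0) := by
    refine (Filter.tendsto_iff_ultrafilter _ _ _).2 fun U hU => ?_
    obtain ⟨ν, hν⟩ := exists_lim U mX _ (Eventually.of_forall hXs')
    have h1 : (ν : Measure ℝ) = X0 := by
      refine eq_of_mellin (hint U ν hU hν)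
        (hint (hyperfilter ℕ) X0 Nat.hyperfilter_le_atTop hX0) (fun τ => ?_) (fun τ => ?_)
      · have a1 := (limU U ν hU hν (me τ) (me_cont τ) (norm_me τ)).2
        have a2 := (limU _ X0 Nat.hyperfilter_le_atTop hX0 (me τ) (me_cont τ) (norm_me τ)).2
        have a3 := limX τ (me τ) (me_cont τ) (norm_me τ) (fun y hy x => me_mul τ hy x)
        rw [tendsto_nhds_unique a1 (a3.mono_left hU),
          tendsto_nhds_unique a2 (a3.mono_left Nat.hyperfilter_le_atTop)]
      · have a1 := (limU U ν hU hν (mo τ) (mo_cont τ) (norm_mo τ)).2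
        have a2 := (limU _ X0 Nat.hyperfilter_le_atTop hX0 (mo τ) (mo_cont τ) (norm_mo τ)).2
        have a3 := limX τ (mo τ) (mo_cont τ) (norm_mo τ) (fun y hy x => mo_mul τ hy x)
        rw [tendsto_nhds_unique a1 (a3.mono_left hU),
          tendsto_nhds_unique a2 (a3.mono_left Nat.hyperfilter_le_atTop)]
    rwa [show ν = X0 from Subtype.ext h1] at hν
  have hc : Continuous fun x : ℝ => Complex.exp (((t * x : ℝ) : ℂ) * Complex.I) := by fun_prop
  have h2 := (ui hXl hc (B := 1) (Eventually.of_forall fun n => by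
    simp only [Complex.norm_exp_ofReal_mul_I]
    simp)).2
  exact ⟨_, h2.congr fun n => iX n _ hc⟩

end

end Pool.Agent.K7.H89.GMC.DEC
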