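import Pool.Agent.K7.H95.GMC.Defs
import Pool.Agent.K7.H89.GMC.DEC4

/-!
Piece DEC of the project MP_55470d_pr of helper95.
-/

set_option autoImplicit false

namespace Pool.Agent.K7.H89.GMC

theorem s_DEC : Pool.Agent.K7.H95.GMC.S_DEC := by
  intro Ω _ P _ X Y C v _ hX hY hpos hind hXC hYs hW t
  exact DEC.main Ω P X Y C v hX hY hpos hind hXC hYs hW t

end Pool.Agent.K7.H89.GMC
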