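import Pool.Agent.K7.H95.GMC.Defs2

/-!
Piece GEO of the project MP_55470d_pr of helper95: elementary geometry of the sphere.
-/

set_option autoImplicit false

open MeasureTheory Complex Filter Topology
open scoped ENNReal NNReal BoundedContinuousFunction

namespace Pool.Agent.K7.H89.GMC

open Pool.Agent.K7.H95.GMC

noncomputable section

lemma cont_coord (i : Fin 3) : Continuous fun u : S2 => (u : R3) i := by
  fun_prop

lemma sph (u : S2) : (u : R3) 0 ^ 2 + (u : R3) 1 ^ 2 + (u : R3) 2 ^ 2 = 1 := by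
  have h : ‖(u : R3)‖ = 1 := mem_sphere_zero_iff_norm.1 u.2
  rw [EuclideanSpace.norm_eq, Real.sqrt_eq_one] at h
  simpa [Fin.sum_univ_three] using h

lemma le1 (u : S2) : (u : R3) 2 ≤ 1 := by
  nlinarith [sph u, sq_nonneg ((u : R3) 0), sq_nonneg ((u : R3) 1)]

/-- `x - i y` -/
def xy (u : S2) : ℂ := (((u : R3) 0 : ℝ) : ℂ) - (((u : R3) 1 : ℝ) : ℂ) * I

lemma sa_sq (u : S2) : ‖sa u‖ ^ 2 = (1 - (u : R3) 2) / 2 := by
  unfold sa
  rw [Complex.norm_real, Real.norm_eq_abs, sq_abs, Real.sq_sqrt]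
  linarith [le1 u]

lemma sa_sb (u : S2) : sa u * (starRingEnd ℂ) (sb u) = -xy u / 2 := by
  unfold sb xy
  split_ifs with h
  · have h0 := sph u
    have h1 : (u : R3) 0 = 0 := by nlinarith [sq_nonneg ((u : R3) 0), sq_nonneg ((u : R3) 1)]
    have h2 : (u : R3) 1 = 0 := by nlinarith [sq_nonneg ((u : R3) 0), sq_nonneg ((u : R3) 1)]
    simp [sa, h, h1, h2]
  · have h3 : 0 < 1 - (u : R3) 2 := by
      have := lt_of_le_of_ne (le1 u) h
      linarith
    have h4 : √(2 * (1 - (u : R3) 2)) = 2 * √((1 - (u : R3) 2) / 2) := by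
      rw [show 2 * (1 - (u : R3) 2) = 2 ^ 2 * ((1 - (u : R3) 2) / 2) by ring,
        Real.sqrt_mul (by norm_num), Real.sqrt_sq (by norm_num)]
    have h5 : √((1 - (u : R3) 2) / 2) ≠ 0 := (Real.sqrt_pos.2 (by linarith)).ne'
    have h6 : ((√((1 - (u : R3) 2) / 2) : ℝ) : ℂ) ≠ 0 := by exact_mod_cast h5
    rw [h4]
    simp only [sa, map_div₀, map_neg, map_add, map_mul, Complex.conj_ofReal, Complex.conj_I,
      Complex.ofReal_mul, Complex.ofReal_ofNat, map_ofNat]
    field_simp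
    ring

lemma sb_sq (u : S2) : ‖sb u‖ ^ 2 = (1 + (u : R3) 2) / 2 := by
  by_cases h : (u : R3) 2 = 1
  · simp [sb, h]
  · have h3 : 0 < 1 - (u : R3) 2 := by
      have := lt_of_le_of_ne (le1 u) h
      linarith
    have h1 : ‖sa u‖ ^ 2 * ‖sb u‖ ^ 2 = ((u : R3) 0 ^ 2 + (u : R3) 1 ^ 2) / 4 := by
      have h2 : ‖sa u * (starRingEnd ℂ) (sb u)‖ ^ 2 = ((u : R3) 0 ^ 2 + (u : R3) 1 ^ 2) / 4 := by
        rw [sa_sb, xy, ← Complex.normSq_eq_norm_sq, Complex.normSq_apply]
        simp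
        ring
      rw [← h2, norm_mul, mul_pow, RCLike.norm_conj]
    rw [sa_sq] at h1
    have h5 := sph u
    have h6 : (1 - (u : R3) 2) * ‖sb u‖ ^ 2 = (1 - (u : R3) 2) * ((1 + (u : R3) 2) / 2) := by
      nlinarith
    exact mul_left_cancel₀ h3.ne' h6

lemma nsq_add (z w : ℂ) : ‖z + w‖ ^ 2 = ‖z‖ ^ 2 + ‖w‖ ^ 2 + 2 * (z * (starRingEnd ℂ) w).re := by
  simp only [← Complex.normSq_eq_norm_sq]
  rw [Complex.normSq_add]

lemma dist_sph (u v : S2) : ‖(u : R3) - (v : R3)‖ ^ 2 = 2 - 2 * ((u : R3) 0 * (v : R3) 0 +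
    (u : R3) 1 * (v : R3) 1 + (u : R3) 2 * (v : R3) 2) := by
  rw [EuclideanSpace.norm_eq, Real.sq_sqrt (by positivity)]
  simp only [Fin.sum_univ_three, PiLp.sub_apply, Real.norm_eq_abs, sq_abs]
  nlinarith [sph u, sph v]

lemma meas_sa : Measurable sa := by
  unfold sa
  refine Continuous.measurable ?_
  refine Complex.continuous_ofReal.comp (Real.continuous_sqrt.comp ?_)
  exact (continuous_const.sub (cont_coord 2)).div_const _

lemma meas_sb : Measurable sb := by
  unfold sb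
  refine Measurable.ite ?_ measurable_const ?_
  · exact measurableSet_eq_fun (cont_coord 2).measurable measurable_const
  · have h0 := (cont_coord 0).measurable
    have h1 := (cont_coord 1).measurable
    have h2 := (cont_coord 2).measurable
    exact ((measurable_ofReal.comp h0).add ((measurable_ofReal.comp h1).mul_const I)).neg.div
      (measurable_ofReal.comp ((measurable_const.mul (measurable_const.sub h2)).sqrt))

theorem s_GEO : S_GEO := by
  refine ⟨meas_sa, meas_sb, fun u => ?_, fun u v => ?_, fun u w => ?_⟩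
  · rw [sa_sq, sb_sq]; ring
  · have h1 : sa v * (starRingEnd ℂ) (sa u) * (starRingEnd ℂ) (sb v * (starRingEnd ℂ) (sb u)) =
        (sa v * (starRingEnd ℂ) (sb v)) * (starRingEnd ℂ) (sa u * (starRingEnd ℂ) (sb u)) := by
      simp only [map_mul, Complex.conj_conj]
      ring
    rw [nsq_add, h1, sa_sb, sa_sb, norm_mul, norm_mul, RCLike.norm_conj, RCLike.norm_conj,
      mul_pow, mul_pow, sa_sq, sa_sq, sb_sq, sb_sq, dist_sph]
    simp only [xy, map_div₀, map_neg, map_sub, map_mul, Complex.conj_ofReal, Complex.conj_I,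
      map_ofNat]
    simp [Complex.mul_re]
    ring
  · have h1 : sa u * w * (starRingEnd ℂ) (sb u) = (sa u * (starRingEnd ℂ) (sb u)) * w := by ring
    rw [nsq_add, h1, sa_sb, norm_mul, mul_pow, sa_sq, sb_sq, dist_sph]
    have h2 : (1 + ‖w‖ ^ 2) ≠ 0 := by positivity
    simp only [Tinv, Matrix.cons_val_zero, Matrix.cons_val_one, Matrix.cons_val, PiLp.toLp_apply]
    rw [eq_div_iff h2]
    simp [xy, Complex.mul_re]
    field_simp
    ring

end

end Pool.Agent.K7.H89.GMC
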