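import Pool.Agent.K7.H95.GMC.Defs
import Pool.Agent.R923.SE.Base
import Pool.Agent.R923.SE.N
import Pool.Agent.R923.SE.Hol

/-!
Changes of variables for complex matrices (piece IND of the project MP_55470d_pr of helper95).
-/

set_option autoImplicit false

open MeasureTheory Filter Topology
open scoped ENNReal NNReal ComplexOrder MatrixOrder

namespace Pool.Agent.K7.H89.GMC.IND

open Pool.Agent.R923.SE

noncomputable section

/-- right multiplication by a matrix, as a linear map -/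
def Rm {n : ℕ} (B : Matrix (Fin n) (Fin n) ℂ) : (Fin n → Fin n → ℂ) →ₗ[ℂ] (Fin n → Fin n → ℂ) :=
  LinearMap.pi fun i => (Matrix.vecMulLinear B) ∘ₗ LinearMap.proj i

lemma Rm_apply {n : ℕ} (B : Matrix (Fin n) (Fin n) ℂ) (X : Mt n n) :
    Rm B X = fun i j => (Matrix.of X * B) i j := by
  funext i j
  simp [Rm, Matrix.mul_apply, Matrix.vecMul, dotProduct]

lemma det_Rm {n : ℕ} (B : Matrix (Fin n) (Fin n) ℂ) : LinearMap.det (Rm B) = B.det ^ n := by
  rw [Rm, LinearMap.det_pi]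
  have h : LinearMap.det (Matrix.vecMulLinear B) = B.det := by
    have : Matrix.vecMulLinear B = Matrix.toLin' B.transpose := by
      ext v j
      simp [Matrix.vecMul_transpose, Matrix.mulVec_transpose]
    rw [this, LinearMap.det_toLin', Matrix.det_transpose]
  simp [h]

/-- transposition, as a linear equivalence -/
def tr (n : ℕ) : (Fin n → Fin n → ℂ) ≃ₗ[ℂ] (Fin n → Fin n → ℂ) where
  toFun X i j := X j i
  invFun X i j := X j i
  map_add' _ _ := rfl
  map_smul' _ _ := rfl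
  left_inv _ := rfl
  right_inv _ := rfl

/-- left multiplication by a matrix, as a linear map -/
def Lm {n : ℕ} (T : Matrix (Fin n) (Fin n) ℂ) : (Fin n → Fin n → ℂ) →ₗ[ℂ] (Fin n → Fin n → ℂ) :=
  (tr n).toLinearMap ∘ₗ Rm T.transpose ∘ₗ (tr n).symm.toLinearMap

lemma Lm_apply {n : ℕ} (T : Matrix (Fin n) (Fin n) ℂ) (X : Mt n n) :
    Lm T X = fun i j => (T * Matrix.of X) i j := by
  funext i j
  simp [Lm, Rm_apply, tr, Matrix.mul_apply, mul_comm]

lemma det_Lm {n : ℕ} (T : Matrix (Fin n) (Fin n) ℂ) : LinearMap.det (Lm T) = T.det ^ n := by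
  rw [Lm, LinearMap.det_conj, det_Rm, Matrix.det_transpose]

lemma det_real {n : ℕ} (f : (Fin n → Fin n → ℂ) →ₗ[ℂ] (Fin n → Fin n → ℂ)) :
    LinearMap.det (f.restrictScalars ℝ) = ‖LinearMap.det f‖ ^ 2 := by
  rw [LinearMap.det_restrictScalars, Algebra.norm_complex_apply, Complex.normSq_eq_norm_sq]

lemma lint_map {n : ℕ} (f : (Fin n → Fin n → ℂ) →ₗ[ℂ] (Fin n → Fin n → ℂ))
    (hf : LinearMap.det f ≠ 0) {F : Mt n n → ℝ≥0∞} (hF : Measurable F) :
    ∫⁻ X : Mt n n, F X = ENNReal.ofReal (‖LinearMap.det f‖ ^ 2) * ∫⁻ X : Mt n n, F (f X) := by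
  have h0 : LinearMap.det (f.restrictScalars ℝ) ≠ 0 := by
    rw [det_real]
    exact pow_ne_zero _ (norm_ne_zero_iff.2 hf)
  have h1 := Measure.map_linearMap_addHaar_eq_smul_addHaar (volume : Measure (Mt n n)) h0
  have hm : Measurable (f.restrictScalars ℝ : Mt n n → Mt n n) :=
    (LinearMap.continuous_of_finiteDimensional _).measurable
  have h2 : ∫⁻ X : Mt n n, F (f X) = ENNReal.ofReal ((‖LinearMap.det f‖ ^ 2)⁻¹) *
      ∫⁻ X : Mt n n, F X := by
    have h3 : ∫⁻ X : Mt n n, F (f X) = ∫⁻ X, F X ∂(Measure.map (f.restrictScalars ℝ) volume) := by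
      rw [lintegral_map hF hm]
      rfl
    rw [h3, h1, lintegral_smul_measure, det_real, abs_of_nonneg (by positivity)]
    rfl
  have h4 : 0 < ‖LinearMap.det f‖ ^ 2 := by
    have := norm_pos_iff.2 hf
    positivity
  rw [h2, ← mul_assoc, ← ENNReal.ofReal_mul h4.le, mul_inv_cancel₀ h4.ne', ENNReal.ofReal_one,
    one_mul]

lemma lint_right {n : ℕ} {B : Matrix (Fin n) (Fin n) ℂ} (hB : B.det ≠ 0) {F : Mt n n → ℝ≥0∞}
    (hF : Measurable F) :
    ∫⁻ A : Mt n n, F A = ENNReal.ofReal (‖B.det‖ ^ (2 * n)) *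
      ∫⁻ X : Mt n n, F (fun i j => (Matrix.of X * B) i j) := by
  rw [lint_map (Rm B) (by rw [det_Rm]; exact pow_ne_zero _ hB) hF, det_Rm, norm_pow, ← pow_mul,
    mul_comm n 2]
  simp only [Rm_apply]

lemma lint_left {n : ℕ} {T : Matrix (Fin n) (Fin n) ℂ} (hT : T.det ≠ 0) {F : Mt n n → ℝ≥0∞}
    (hF : Measurable F) :
    ∫⁻ A : Mt n n, F A = ENNReal.ofReal (‖T.det‖ ^ (2 * n)) *
      ∫⁻ X : Mt n n, F (fun i j => (T * Matrix.of X) i j) := by
  rw [lint_map (Lm T) (by rw [det_Lm]; exact pow_ne_zero _ hT) hF, det_Lm, norm_pow, ← pow_mul,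
    mul_comm n 2]
  simp only [Lm_apply]

/-- `nsq` as a trace -/
lemma nsq_trace {n : ℕ} (B : Mt n n) :
    nsq B = (Matrix.trace ((Matrix.of B).conjTranspose * Matrix.of B)).re := by
  unfold nsq
  rw [Finset.sum_comm]
  simp only [Matrix.trace, Matrix.diag_apply, Matrix.mul_apply, Matrix.conjTranspose_apply,
    Matrix.of_apply, Complex.re_sum]
  refine Finset.sum_congr rfl fun j _ => Finset.sum_congr rfl fun i _ => ?_
  rw [Complex.star_def, ← Complex.normSq_eq_conj_mul_self, Complex.ofReal_re,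
    Complex.normSq_eq_norm_sq]

/-- a square root of `1 + X* X` -/
lemma exists_T {n : ℕ} (X : Matrix (Fin n) (Fin n) ℂ) :
    ∃ T : Matrix (Fin n) (Fin n) ℂ, T.conjTranspose * T = 1 + X.conjTranspose * X := by
  have h : (1 + X.conjTranspose * X).PosSemidef :=
    Matrix.PosSemidef.one.add (Matrix.posSemidef_conjTranspose_mul_self X)
  obtain ⟨T, hT⟩ := CStarAlgebra.nonneg_iff_eq_star_mul_self.mp h.nonneg
  exact ⟨T, hT.symm⟩

/-- `det (1 + X* X)` -/
def dX {n : ℕ} (X : Mt n n) : ℝ :=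
  (Matrix.det (1 + (Matrix.of X).conjTranspose * Matrix.of X)).re

lemma dX_eq {n : ℕ} (X : Mt n n) {T : Matrix (Fin n) (Fin n) ℂ}
    (hT : T.conjTranspose * T = 1 + (Matrix.of X).conjTranspose * Matrix.of X) :
    dX X = ‖T.det‖ ^ 2 := by
  rw [dX, ← hT, Matrix.det_mul, Matrix.det_conjTranspose, Complex.star_def,
    ← Complex.normSq_eq_conj_mul_self, Complex.ofReal_re, Complex.normSq_eq_norm_sq]

lemma dX_pos {n : ℕ} (X : Mt n n) : 0 < dX X := by
  have h : (1 + (Matrix.of X).conjTranspose * Matrix.of X).PosDef :=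
    Matrix.PosDef.one.add_posSemidef (Matrix.posSemidef_conjTranspose_mul_self _)
  have := h.det_pos
  rw [dX]
  exact (Complex.pos_iff.1 this).1

lemma continuous_dX {n : ℕ} : Continuous (dX : Mt n n → ℝ) := by
  unfold dX
  refine Complex.continuous_re.comp ?_
  refine Continuous.matrix_det ?_
  have h : Continuous fun X : Mt n n => (Matrix.of X) := continuous_id
  exact continuous_const.add ((h.matrix_conjTranspose).matrix_mul h)

end

end Pool.Agent.K7.H89.GMC.IND
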