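import Pool.Agent.K7.H89.GMC.GEO
import Pool.Agent.R923.SE.Hol
import Pool.Agent.R923.SE.Base
import Pool.Agent.R923.SE.N

/-!
Piece MAIN of the project MP_55470d_pr of helper95: the weights in terms of determinants.
-/

set_option autoImplicit false

open MeasureTheory Complex Filter Topology
open scoped ENNReal NNReal BoundedContinuousFunction

namespace Pool.Agent.K7.H89.GMC

open Pool.Agent.R923.SE Pool.Agent.K7.H95.GMC

noncomputable section

variable {n : ℕ}

/-- `A B⁻¹` -/
def qt (x : Mt n n × Mt n n) : Mt n n := Matrix.of x.1 * (Matrix.of x.2)⁻¹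

/-- `det (a X + b)` -/
def dtl (a b : ℂ) (X : Mt n n) : ℂ :=
  (a • Matrix.of X + b • (1 : Matrix (Fin n) (Fin n) ℂ)).det

/-- `yy` on `Mt` -/
def y1 (X : Mt n n) : ℝ := yy (Matrix.of X)

/-- the unnormalised density -/
def dn (p : ℝ) (X : Mt n n) (u : S2) : ℝ := (‖dtl (sa u) (sb u) X‖ ^ 2 / y1 X) ^ p

lemma dtl_eq (a b : ℂ) (X : Mt n n) :
    dtl a b X = ((Matrix.of X).charpoly.roots.map fun w => a * w + b).prod := by
  have hs := IsAlgClosed.splits (Matrix.of X).charpoly
  have hc : (Matrix.of X).charpoly.roots.card = n := by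
    rw [Polynomial.splits_iff_card_roots.1 hs, Matrix.charpoly_natDegree_eq_dim, Fintype.card_fin]
  by_cases ha : a = 0
  · subst ha
    simp [dtl, hc]
  · have h1 : a • Matrix.of X + b • (1 : Matrix (Fin n) (Fin n) ℂ) =
        (-a) • (Matrix.scalar (Fin n) (-b / a) - Matrix.of X) := by
      ext i j
      by_cases hij : i = j
      · subst hij
        simp
        field_simp
        ring
      · simp [hij]
    rw [dtl, h1, Matrix.det_smul, ← Matrix.eval_charpoly, Fintype.card_fin]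
    conv_lhs => rw [hs.eq_prod_roots_of_monic (Matrix.charpoly_monic _)]
    rw [Polynomial.eval_multiset_prod, Multiset.map_map]
    have h2 : ∀ s : Multiset ℂ, (-a) ^ s.card *
        (s.map (Polynomial.eval (-b / a) ∘ fun w => Polynomial.X - Polynomial.C w)).prod =
        (s.map fun w => a * w + b).prod := by
      intro s
      induction s using Multiset.induction_on with
      | empty => simp
      | cons w s ih =>
        rw [Multiset.card_cons, Multiset.map_cons, Multiset.prod_cons, Multiset.map_cons,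
          Multiset.prod_cons, ← ih]
        simp only [Function.comp, Polynomial.eval_sub, Polynomial.eval_X, Polynomial.eval_C]
        field_simp
        ring
    rw [← h2, hc]

lemma dt_comb {x : Mt n n × Mt n n} (hx : dt x.2 ≠ 0) (a b : ℂ) :
    dt (a • x.1 + b • x.2) = dtl a b (qt x) * dt x.2 := by
  have hu : IsUnit (Matrix.of x.2).det := isUnit_iff_ne_zero.2 hx
  unfold dt dtl
  rw [← Matrix.det_mul]
  congr 1
  have h1 : Matrix.of (qt x) = Matrix.of x.1 * (Matrix.of x.2)⁻¹ := rfl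
  rw [h1, Matrix.add_mul, Matrix.smul_mul, Matrix.smul_mul, Matrix.mul_assoc,
    Matrix.nonsing_inv_mul _ hu, Matrix.mul_one, Matrix.one_mul]
  rfl

lemma yy_pos (X : Matrix (Fin n) (Fin n) ℂ) : 0 < yy X := by
  unfold yy
  have : ∀ s : Multiset ℂ, 0 < (s.map fun w : ℂ => 1 + ‖w‖ ^ 2).prod := by
    intro s
    induction s using Multiset.induction_on with
    | empty => simp
    | cons w s ih =>
      rw [Multiset.map_cons, Multiset.prod_cons]
      positivity
  exact this _

lemma y1_pos (X : Mt n n) : 0 < y1 X := yy_pos _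

lemma ratio (X : Mt n n) (u : S2) : ‖dtl (sa u) (sb u) X‖ ^ 2 / y1 X =
    ((Matrix.of X).charpoly.roots.map fun w => ‖(u : R3) - (Tinv w : R3)‖ ^ 2 / 4).prod := by
  rw [dtl_eq, y1, yy]
  have : ∀ s : Multiset ℂ, ‖(s.map fun w => sa u * w + sb u).prod‖ ^ 2 /
      (s.map fun w : ℂ => 1 + ‖w‖ ^ 2).prod =
      (s.map fun w => ‖(u : R3) - (Tinv w : R3)‖ ^ 2 / 4).prod := by
    intro s
    induction s using Multiset.induction_on with
    | empty => simp
    | cons w s ih =>
      simp only [Multiset.map_cons, Multiset.prod_cons]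
      rw [← ih, norm_mul, mul_pow, mul_div_mul_comm, s_GEO.2.2.2.2 u w]
  exact this _

lemma dist_le (u v : S2) : ‖(u : R3) - (v : R3)‖ ^ 2 / 4 ≤ 1 := by
  have h1 : ‖(u : R3)‖ = 1 := mem_sphere_zero_iff_norm.1 u.2
  have h2 : ‖(v : R3)‖ = 1 := mem_sphere_zero_iff_norm.1 v.2
  have h3 := norm_sub_le (u : R3) (v : R3)
  nlinarith [norm_nonneg ((u : R3) - (v : R3))]

lemma ratio_le (X : Mt n n) (u : S2) : ‖dtl (sa u) (sb u) X‖ ^ 2 / y1 X ≤ 1 := by
  rw [ratio]
  have : ∀ s : Multiset ℂ, 0 ≤ (s.map fun w => ‖(u : R3) - (Tinv w : R3)‖ ^ 2 / 4).prod ∧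
      (s.map fun w => ‖(u : R3) - (Tinv w : R3)‖ ^ 2 / 4).prod ≤ 1 := by
    intro s
    induction s using Multiset.induction_on with
    | empty => simp
    | cons w s ih =>
      rw [Multiset.map_cons, Multiset.prod_cons]
      exact ⟨mul_nonneg (by positivity) ih.1, mul_le_one₀ (dist_le _ _) ih.1 ih.2⟩
  exact (this _).2

lemma dn_nonneg (p : ℝ) (X : Mt n n) (u : S2) : 0 ≤ dn p X u := by
  have := y1_pos X
  unfold dn
  positivity

lemma dn_le {p : ℝ} (hp : 0 ≤ p) (X : Mt n n) (u : S2) : dn p X u ≤ 1 := by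
  have := y1_pos X
  exact Real.rpow_le_one (by positivity) (ratio_le X u) hp

lemma wt_eq {γ : ℝ} {x : Mt n n × Mt n n} {u : S2} (h : ∀ w ∈ ev x, u ≠ Tinv w) :
    wt γ x u = dn (γ / 2) (qt x) u := by
  rw [dn, ratio, wt, Lg]
  have : ∀ s : Multiset ℂ, (∀ w ∈ s, u ≠ Tinv w) →
      0 ≤ (s.map fun w => ‖(u : R3) - (Tinv w : R3)‖ ^ 2 / 4).prod ∧
      Real.exp (γ * (s.map fun w => Real.log (‖(u : R3) - (Tinv w : R3)‖ / 2)).sum) =
      (s.map fun w => ‖(u : R3) - (Tinv w : R3)‖ ^ 2 / 4).prod ^ (γ / 2) := by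
    intro s hs
    induction s using Multiset.induction_on with
    | empty => simp
    | cons w s ih =>
      have ih := ih fun v hv => hs v (Multiset.mem_cons_of_mem hv)
      have hw : u ≠ Tinv w := hs w (Multiset.mem_cons_self _ _)
      have h1 : 0 < ‖(u : R3) - (Tinv w : R3)‖ := by
        rw [norm_pos_iff, sub_ne_zero]
        exact fun h => hw (Subtype.ext h)
      simp only [Multiset.map_cons, Multiset.sum_cons, Multiset.prod_cons]
      refine ⟨mul_nonneg (by positivity) ih.1, ?_⟩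
      rw [mul_add, Real.exp_add, ih.2, Real.mul_rpow (by positivity) ih.1]
      congr 1
      rw [show ‖(u : R3) - (Tinv w : R3)‖ ^ 2 / 4 = (‖(u : R3) - (Tinv w : R3)‖ / 2) ^ 2 by ring,
        ← Real.rpow_natCast, ← Real.rpow_mul (by positivity), Real.rpow_def_of_pos (by positivity)]
      congr 1
      push_cast
      ring
  exact (this _ h).2

/-- relation with the determinant of `a A + b B` -/
lemma comb_eq {x : Mt n n × Mt n n} (hx : dt x.2 ≠ 0) (p : ℝ) (u : S2) :
    ‖dt (sa u • x.1 + sb u • x.2)‖ ^ (2 * p) = Y2 x ^ p * dn p (qt x) u := by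
  have h1 := y1_pos (qt x)
  have h2 : 0 < ‖dt x.2‖ := norm_pos_iff.2 hx
  have h3 : Y2 x = ‖dt x.2‖ ^ 2 * y1 (qt x) := rfl
  rw [dt_comb hx, dn, h3, ← Real.mul_rpow (by positivity) (by positivity), Real.rpow_mul (by positivity)]
  congr 1
  rw [norm_mul, Real.rpow_two]
  field_simp

lemma Y2_pos {x : Mt n n × Mt n n} (hx : dt x.2 ≠ 0) : 0 < Y2 x := by
  have h1 := y1_pos (qt x)
  have h2 : 0 < ‖dt x.2‖ := norm_pos_iff.2 hx
  have h3 : Y2 x = ‖dt x.2‖ ^ 2 * y1 (qt x) := rfl
  rw [h3]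
  positivity

/-- `dt (a A + b B) = 0` if the point is an eigenvalue -/
lemma comb_zero {x : Mt n n × Mt n n} (hx : dt x.2 ≠ 0) {u : S2} {w : ℂ} (hw : w ∈ ev x)
    (hu : u = Tinv w) : dt (sa u • x.1 + sb u • x.2) = 0 := by
  rw [dt_comb hx]
  have h1 : ‖dtl (sa u) (sb u) (qt x)‖ ^ 2 / y1 (qt x) = 0 := by
    rw [ratio]
    refine Multiset.prod_eq_zero ?_
    rw [Multiset.mem_map]
    refine ⟨w, hw, ?_⟩
    rw [hu]
    simp
  have h2 := (y1_pos (qt x)).ne'
  rw [div_eq_zero_iff] at h1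
  have h3 : dtl (sa u) (sb u) (qt x) = 0 := by
    rcases h1 with h1 | h1
    · simpa using h1
    · exact absurd h1 h2
  rw [h3, zero_mul]

end

end Pool.Agent.K7.H89.GMC
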