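import Pool.Agent.K7.H89.GMC.M1

/-!
Piece MAIN of the project MP_55470d_pr of helper95: measurability and one-point computations.
-/

set_option autoImplicit false

open MeasureTheory Complex Filter Topology
open scoped ENNReal NNReal BoundedContinuousFunction

namespace Pool.Agent.K7.H89.GMC

open Pool.Agent.R923.SE Pool.Agent.K7.H95.GMC

noncomputable section

variable {n : ℕ}

/-- moments of `Y2` -/
def mq (n : ℕ) (q : ℝ) : ℝ := (Real.Gamma (n + 1 + q) / Real.Gamma (n + 1)) ^ n

/-- moments of the weights -/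
def cn (n : ℕ) (p : ℝ) : ℝ := (NN n p).re / mq n p

lemma mq_pos {q : ℝ} (hq : -1 < q) : 0 < mq n q := by
  unfold mq
  have h1 : 0 < Real.Gamma (n + 1 + q) := Real.Gamma_pos_of_pos (by
    have : (0 : ℝ) ≤ n := Nat.cast_nonneg n
    linarith)
  have h2 : 0 < Real.Gamma ((n : ℝ) + 1) := Real.Gamma_pos_of_pos (by positivity)
  positivity

lemma NN_pos {p : ℝ} (hp : -1 < p) : 0 < (NN n p).re := by
  rw [hol_NN_real, Complex.ofReal_re]
  refine Finset.prod_pos fun j _ => ?_
  have h1 : 0 < Real.Gamma (j + 1 + p) := Real.Gamma_pos_of_pos (by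
    have : (0 : ℝ) ≤ j := Nat.cast_nonneg j
    linarith)
  have h2 : 0 < Real.Gamma ((j : ℝ) + 1) := Real.Gamma_pos_of_pos (by positivity)
  positivity

lemma cn_pos {p : ℝ} (hp : -1 < p) : 0 < cn n p := div_pos (NN_pos hp) (mq_pos hp)

lemma nu_singleton (hA : S_ARCH) (y : S2) : nu {y} = 0 := by
  have h := hA.2 y (Set.indicator {1} fun _ => 1) (measurable_const.indicator (measurableSet_singleton _))
  have h2 : ∫⁻ t in Set.Icc (0 : ℝ) 1, Set.indicator {1} (fun _ => (1 : ℝ≥0∞)) t = 0 := by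
    rw [lintegral_indicator (measurableSet_singleton _)]
    simp
  rw [h2] at h
  have h3 : nu {y} ≤ ∫⁻ x : S2, Set.indicator {1} (fun _ => (1 : ℝ≥0∞))
      (1 - ‖(x : R3) - (y : R3)‖ ^ 2 / 4) ∂nu := by
    rw [← lintegral_indicator_one (measurableSet_singleton y)]
    refine lintegral_mono fun x => ?_
    by_cases hx : x ∈ ({y} : Set S2)
    · rw [Set.mem_singleton_iff] at hx
      subst hx
      simp
    · simp [Set.indicator_of_notMem hx]
  exact le_antisymm (h3.trans h.le) bot_le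

lemma meas_y1 (hI : S_IND) : Measurable (y1 : Mt n n → ℝ) := by
  have h1 := (hI.1 n).comp (measurable_id.prodMk (measurable_const (a := ((1 : Matrix (Fin n) (Fin n) ℂ) : Mt n n))))
  have h4 : (y1 : Mt n n → ℝ) = Y2 ∘ fun X => (id X, ((1 : Matrix (Fin n) (Fin n) ℂ) : Mt n n)) := ?_
  · rw [h4]; exact h1
  funext X
  have h2 : dt ((1 : Matrix (Fin n) (Fin n) ℂ) : Mt n n) = 1 := by
    unfold dt
    exact Matrix.det_one
  have h3 : Matrix.of ((1 : Matrix (Fin n) (Fin n) ℂ) : Mt n n) = 1 := rfl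
  simp only [Function.comp, id, Y2, h2, h3, y1, inv_one, mul_one, norm_one, one_pow, one_mul]

lemma meas_dtl : Measurable fun z : Mt n n × S2 => dtl (sa z.2) (sb z.2) z.1 := by
  have hc : Continuous fun z : Mt n n × ℂ × ℂ => dtl z.2.1 z.2.2 z.1 := by
    unfold dtl
    refine Continuous.matrix_det ?_
    have h : Continuous fun X : Mt n n × ℂ × ℂ => (Matrix.of X.1) := continuous_fst
    exact ((continuous_fst.comp continuous_snd).smul h).add
      ((continuous_snd.comp continuous_snd).smul continuous_const)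
  exact hc.measurable.comp (measurable_fst.prodMk ((meas_sa.comp measurable_snd).prodMk
    (meas_sb.comp measurable_snd)))

lemma meas_dn (hI : S_IND) (p : ℝ) : Measurable fun z : Mt n n × S2 => dn p z.1 z.2 := by
  unfold dn
  exact ((meas_dtl.norm.pow_const 2).div ((meas_y1 hI).comp measurable_fst)).pow_const p

lemma meas_qt : Measurable (qt : Mt n n × Mt n n → Mt n n) := by
  have h1 : Continuous fun x : Mt n n × Mt n n => Matrix.of x.1 := continuous_fst
  have h2 : Continuous fun x : Mt n n × Mt n n => Matrix.of x.2 := continuous_snd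
  have h3 : Continuous fun x : Mt n n × Mt n n =>
      (Matrix.of x.1 * (Matrix.of x.2).adjugate : Matrix (Fin n) (Fin n) ℂ) :=
    h1.matrix_mul h2.matrix_adjugate
  have h4 : Measurable fun x : Mt n n × Mt n n => ((Matrix.of x.2).det)⁻¹ :=
    (h2.matrix_det).measurable.inv
  have h5 : (qt : Mt n n × Mt n n → Mt n n) = fun x i j => ((Matrix.of x.2).det)⁻¹ *
      (Matrix.of x.1 * (Matrix.of x.2).adjugate : Matrix (Fin n) (Fin n) ℂ) i j := by
    funext x i j
    simp only [qt, Matrix.inv_def, Ring.inverse_eq_inv', Matrix.mul_smul, Matrix.smul_apply,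
      smul_eq_mul]
  rw [h5]
  refine measurable_pi_lambda _ fun i => measurable_pi_lambda _ fun j => h4.mul ?_
  have h6 : Continuous fun x : Mt n n × Mt n n =>
      (Matrix.of x.1 * (Matrix.of x.2).adjugate : Matrix (Fin n) (Fin n) ℂ) i j :=
    h3.matrix_elem i j
  exact h6.measurable

lemma mp_comb {a b : ℂ} (hab : ‖a‖ ^ 2 + ‖b‖ ^ 2 = 1) :
    MeasurePreserving (fun x : Mt n n × Mt n n => a • x.1 + b • x.2) (gg n) (gau n n) := by
  have H := s_ROT n n a b (-(starRingEnd ℂ) b) ((starRingEnd ℂ) a) hab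
    (by rw [norm_neg, RCLike.norm_conj, RCLike.norm_conj]; linarith)
    (by rw [map_neg, Complex.conj_conj, Complex.conj_conj]; ring)
  have H2 : MeasurePreserving (Prod.fst : Mt n n × Mt n n → Mt n n)
      ((gau n n).prod (gau n n)) (gau n n) := measurePreserving_fst
  exact H2.comp H

lemma meas_ne : MeasurableSet {A : Mt n n | dt A ≠ 0} :=
  (hol_continuous_dt n).measurable (measurableSet_singleton (0 : ℂ)).compl

lemma ae_dt2 : ∀ᵐ x ∂gg n, dt x.2 ≠ 0 := by
  have H2 : MeasurePreserving (Prod.snd : Mt n n × Mt n n → Mt n n)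
      ((gau n n).prod (gau n n)) (gau n n) := measurePreserving_snd
  exact H2.quasiMeasurePreserving.ae (s_NUL s_UR n)

lemma ae_comb (u : S2) : ∀ᵐ x ∂gg n, dt (sa u • x.1 + sb u • x.2) ≠ 0 :=
  (mp_comb (s_GEO.2.2.1 u)).quasiMeasurePreserving.ae (s_NUL s_UR n)

lemma lint_dt {p : ℝ} (hp : -1 < p) :
    ∫⁻ A : Mt n n, ENNReal.ofReal (‖dt A‖ ^ (2 * p)) ∂gau n n = ENNReal.ofReal (NN n p).re := by
  obtain ⟨h1, h2⟩ := hol_int_real (s_N s_DEN s_UR) n p hp
  have h3 : (fun A : Mt n n => ‖dt A‖ ^ (2 * p)) =ᵐ[gau n n]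
      fun A => Real.exp (2 * p * Real.log ‖dt A‖) := by
    filter_upwards [s_NUL s_UR n] with A hA
    rw [Real.rpow_def_of_pos (norm_pos_iff.2 hA), mul_comm]
  rw [lintegral_congr_ae (h3.mono fun A hA => congrArg ENNReal.ofReal hA),
    ← ofReal_integral_eq_lintegral_ofReal h1 (Eventually.of_forall fun A => (Real.exp_pos _).le),
    h2, hol_NN_real, Complex.ofReal_re]

/-- class function -/
lemma dn_class (p : ℝ) (u : S2) {X X' : Mt n n}
    (h : (Matrix.of X).charpoly = (Matrix.of X').charpoly) : dn p X u = dn p X' u := by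
  unfold dn
  rw [dtl_eq, dtl_eq, y1, y1, yy, yy, h]

lemma lint_dn (hI : S_IND) {p : ℝ} (hp : -1 < p) (u : S2) :
    ∫⁻ x, ENNReal.ofReal (dn p (qt x) u) ∂gg n = ENNReal.ofReal (cn n p) := by
  have h1 := hI.2 n p hp (fun X => ENNReal.ofReal (dn p X u))
    ((((meas_dn hI p).comp (measurable_id.prodMk measurable_const))).ennreal_ofReal)
    (fun X X' h => by rw [dn_class p u h])
  have h2 : ∫⁻ x : Mt n n × Mt n n, ENNReal.ofReal (dn p (Matrix.of x.1 * (Matrix.of x.2)⁻¹) u) *
      ENNReal.ofReal (Y2 x ^ p) ∂gg n = ENNReal.ofReal (NN n p).re := by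
    rw [← lint_dt hp, ← (mp_comb (s_GEO.2.2.1 u)).lintegral_comp
      ((hol_continuous_dt n).norm.measurable.pow_const _).ennreal_ofReal]
    refine lintegral_congr_ae ?_
    filter_upwards [ae_dt2] with x hx
    rw [comb_eq hx, ENNReal.ofReal_mul (Real.rpow_nonneg (Y2_pos hx).le _), mul_comm]
    rfl
  rw [h2] at h1
  change _ = (∫⁻ x, ENNReal.ofReal (dn p (qt x) u) ∂gg n) * ENNReal.ofReal (mq n p) at h1
  have h3 : ENNReal.ofReal (mq n p) ≠ 0 := by
    simpa using mq_pos hp
  rw [cn, ENNReal.ofReal_div_of_pos (mq_pos hp), h1, mul_div_assoc,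
    ENNReal.div_self h3 ENNReal.ofReal_ne_top, mul_one]

lemma wt_ae (γ : ℝ) (u : S2) : ∀ᵐ x ∂gg n, wt γ x u = dn (γ / 2) (qt x) u := by
  filter_upwards [ae_dt2, ae_comb u] with x hx hu
  exact wt_eq fun w hw h => hu (comb_zero hx hw h)

lemma int_wt (hI : S_IND) {γ : ℝ} (hγ : 0 < γ) (u : S2) :
    ∫ y : Mt n n × Mt n n, wt γ y u ∂gg n = cn n (γ / 2) := by
  have hp : -1 < γ / 2 := by linarith
  rw [integral_congr_ae (wt_ae γ u), integral_eq_lintegral_of_nonneg_ae
    (Eventually.of_forall fun x => dn_nonneg _ _ _), lint_dn hI hp,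
    ENNReal.toReal_ofReal (cn_pos hp).le]
  exact ((meas_dn hI _).comp (meas_qt.prodMk measurable_const)).aestronglyMeasurable

lemma ae_u (hA : S_ARCH) (x : Mt n n × Mt n n) : ∀ᵐ u ∂nu, ∀ w ∈ ev x, u ≠ Tinv w := by
  classical
  have h1 : ∀ s : Finset S2, nu (s : Set S2) = 0 := by
    intro s
    induction s using Finset.induction_on with
    | empty => simp
    | insert a s _ ih =>
      rw [Finset.coe_insert, Set.insert_eq]
      exact measure_union_null (nu_singleton hA a) ih
  have h2 := h1 ((ev x).toFinset.image Tinv)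
  rw [← compl_mem_ae_iff] at h2
  filter_upwards [h2] with u hu w hw h
  refine hu ?_
  rw [Finset.coe_image]
  exact ⟨w, by simpa using hw, h.symm⟩

/-- the density -/
def fd (γ : ℝ) (x : Mt n n × Mt n n) (u : S2) : ℝ := dn (γ / 2) (qt x) u / cn n (γ / 2)

lemma Mn_eq (hI : S_IND) (hA : S_ARCH) {γ : ℝ} (hγ : 0 < γ) (x : Mt n n × Mt n n) :
    Mn γ x = nu.withDensity fun u => ENNReal.ofReal (fd γ x u) := by
  unfold Mn
  refine withDensity_congr_ae ?_
  filter_upwards [ae_u hA x] with u hu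
  rw [wt_eq hu, int_wt hI hγ, fd]

end

end Pool.Agent.K7.H89.GMC
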