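import Pool.Agent.K7.H89.GMC.M2

/-!
Piece MAIN of the project MP_55470d_pr of helper95: independence.
-/

set_option autoImplicit false

open MeasureTheory Complex Filter Topology ProbabilityTheory
open scoped ENNReal NNReal BoundedContinuousFunction

namespace Pool.Agent.K7.H89.GMC

open Pool.Agent.R923.SE Pool.Agent.K7.H95.GMC

noncomputable section

/-- two finite measures on `ℝ` with the same finite Laplace transform near `0` coincide -/
lemma ext_laplace {m m' : Measure ℝ} [IsFiniteMeasure m] [IsFiniteMeasure m'] {r : ℝ} (hr : 0 < r)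
    (h : ∀ q, |q| < r → ∫⁻ l, ENNReal.ofReal (Real.exp (q * l)) ∂m =
      ∫⁻ l, ENNReal.ofReal (Real.exp (q * l)) ∂m')
    (hf : ∀ q, |q| < r → ∫⁻ l, ENNReal.ofReal (Real.exp (q * l)) ∂m ≠ ∞) : m = m' := by
  have hint : ∀ m : Measure ℝ, (∀ q, |q| < r → ∫⁻ l, ENNReal.ofReal (Real.exp (q * l)) ∂m ≠ ∞) →
      ∀ q, |q| < r → Integrable (fun l => Real.exp (q * l)) m := by
    intro m hm q hq
    refine ⟨by fun_prop, ?_⟩
    rw [hasFiniteIntegral_iff_ofReal (Eventually.of_forall fun l => (Real.exp_pos _).le)]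
    exact lt_top_iff_ne_top.2 (hm q hq)
  have hm' : ∀ q, |q| < r → ∫⁻ l, ENNReal.ofReal (Real.exp (q * l)) ∂m' ≠ ∞ := fun q hq => by
    rw [← h q hq]; exact hf q hq
  have hsub : ∀ m : Measure ℝ, (∀ q, |q| < r → ∫⁻ l, ENNReal.ofReal (Real.exp (q * l)) ∂m ≠ ∞) →
      {z : ℂ | |z.re| < r} ⊆ {z | z.re ∈ interior (integrableExpSet id m)} := by
    intro m hm z hz
    have h1 : Set.Ioo (-r) r ⊆ integrableExpSet id m := by
      intro q hq
      exact hint m hm q (abs_lt.2 hq)
    exact interior_maximal h1 isOpen_Ioo (abs_lt.1 hz)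
  have hX : AnalyticOnNhd ℂ (complexMGF id m) {z : ℂ | |z.re| < r} :=
    analyticOnNhd_complexMGF.mono (hsub m hf)
  have hY : AnalyticOnNhd ℂ (complexMGF id m') {z : ℂ | |z.re| < r} :=
    analyticOnNhd_complexMGF.mono (hsub m' hm')
  have hconn : IsPreconnected {z : ℂ | |z.re| < r} := by
    have : {z : ℂ | |z.re| < r} = reLm ⁻¹' (Set.Ioo (-r) r) := by
      ext z
      simp [abs_lt]
    rw [this]
    exact ((convex_Ioo (-r) r).linear_preimage reLm).isPreconnected
  have hreal : ∀ q : ℝ, |q| < r → complexMGF id m q = complexMGF id m' q := by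
    intro q hq
    rw [complexMGF_ofReal, complexMGF_ofReal]
    congr 1
    simp only [mgf, id]
    rw [integral_eq_lintegral_of_nonneg_ae (Eventually.of_forall fun l => (Real.exp_pos _).le)
      (by fun_prop), integral_eq_lintegral_of_nonneg_ae
      (Eventually.of_forall fun l => (Real.exp_pos _).le) (by fun_prop), h q hq]
  have heq : Set.EqOn (complexMGF id m) (complexMGF id m') {z : ℂ | |z.re| < r} := by
    refine AnalyticOnNhd.eqOn_of_preconnected_of_frequently_eq hX hY hconn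
      (z₀ := ((0 : ℝ) : ℂ)) (by simpa using hr) ?_
    have h_real : ∃ᶠ (x : ℝ) in 𝓝[≠] 0, complexMGF id m x = complexMGF id m' x := by
      refine Eventually.frequently ?_
      have h1 : ∀ᶠ x : ℝ in 𝓝 0, |x| < r := by
        have : Tendsto (fun x : ℝ => |x|) (𝓝 0) (𝓝 |0|) := (continuous_abs.tendsto 0)
        rw [abs_zero] at this
        exact this.eventually (gt_mem_nhds hr)
      exact (h1.filter_mono nhdsWithin_le_nhds).mono fun x hx => hreal x hx
    rw [frequently_iff_seq_forall] at h_real ⊢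
    obtain ⟨xs, hx_tendsto, hx_eq⟩ := h_real
    refine ⟨fun n ↦ xs n, ?_, fun n ↦ ?_⟩
    · rw [tendsto_nhdsWithin_iff] at hx_tendsto ⊢
      constructor
      · rw [tendsto_ofReal_iff]
        exact hx_tendsto.1
      · simpa using hx_tendsto.2
    · exact hx_eq n
  refine Measure.ext_of_charFun (funext fun t => ?_)
  rw [← complexMGF_id_mul_I, ← complexMGF_id_mul_I]
  exact heq (by simpa using hr)

variable {n : ℕ}

lemma meas_Y2 (hI : S_IND) : Measurable (Y2 : Mt n n × Mt n n → ℝ) := hI.1 n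

lemma ae_Y2 : ∀ᵐ x ∂gg n, 0 < Y2 x := by
  filter_upwards [ae_dt2] with x hx
  exact Y2_pos hx

lemma ind_g (hI : S_IND) {g : Mt n n → ℝ≥0∞} (hg : Measurable g)
    (hcl : ∀ X X' : Mt n n, (Matrix.of X).charpoly = (Matrix.of X').charpoly → g X = g X')
    {q : ℝ} (hq : -1 < q) :
    ∫⁻ x, g (qt x) * ENNReal.ofReal (Y2 x ^ q) ∂gg n =
      (∫⁻ x, g (qt x) ∂gg n) * ENNReal.ofReal (mq n q) :=
  hI.2 n q hq g hg hcl

lemma ind_1 (hI : S_IND) {q : ℝ} (hq : -1 < q) :
    ∫⁻ x, ENNReal.ofReal (Y2 x ^ q) ∂gg n = ENNReal.ofReal (mq n q) := by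
  have h := ind_g hI (n := n) (g := fun _ => 1) measurable_const (fun _ _ _ => rfl) hq
  simpa using h

lemma indep_key (hI : S_IND) {g : Mt n n → ℝ≥0∞} (hg : Measurable g)
    (hcl : ∀ X X' : Mt n n, (Matrix.of X).charpoly = (Matrix.of X').charpoly → g X = g X')
    (hfin : ∫⁻ x, g (qt x) ∂gg n ≠ ∞) {T : Set ℝ} (hT : MeasurableSet T) :
    ∫⁻ x in Y2 ⁻¹' T, g (qt x) ∂gg n = (∫⁻ x, g (qt x) ∂gg n) * gg n (Y2 ⁻¹' T) := by
  set c := ∫⁻ x, g (qt x) ∂gg n with hc
  have hY : Measurable (Y2 : Mt n n × Mt n n → ℝ) := meas_Y2 hI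
  have hgq : Measurable fun x : Mt n n × Mt n n => g (qt x) := hg.comp meas_qt
  have hl : Measurable fun x : Mt n n × Mt n n => Real.log (Y2 x) := Real.measurable_log.comp hY
  set μ1 : Measure (Mt n n × Mt n n) := (gg n).withDensity fun x => g (qt x) with hμ1
  have hμf : IsFiniteMeasure μ1 := isFiniteMeasure_withDensity hfin
  have hcf : IsFiniteMeasure (c • (gg n).map fun x => Real.log (Y2 x)) := by
    refine ⟨?_⟩
    rw [Measure.smul_apply, smul_eq_mul]
    exact ENNReal.mul_lt_top (lt_top_iff_ne_top.2 hfin) (measure_lt_top _ _)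
  have he : ∀ q : ℝ, Measurable fun l : ℝ => ENNReal.ofReal (Real.exp (q * l)) := fun q => by
    fun_prop
  have hexp : ∀ q : ℝ, ∀ᵐ x ∂gg n, Real.exp (q * Real.log (Y2 x)) = Y2 x ^ q := by
    intro q
    filter_upwards [ae_Y2 (n := n)] with x hx
    rw [Real.rpow_def_of_pos hx, mul_comm]
  have h1 : ∀ q : ℝ, -1 < q → ∫⁻ l, ENNReal.ofReal (Real.exp (q * l))
      ∂(μ1.map fun x => Real.log (Y2 x)) = c * ENNReal.ofReal (mq n q) := by
    intro q hq
    have e1 := lintegral_withDensity_eq_lintegral_mul (gg n) hgq ((he q).comp hl)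
    simp only [Function.comp_apply] at e1
    rw [lintegral_map (he q) hl, hμ1, e1, ← ind_g hI hg hcl hq]
    refine lintegral_congr_ae ?_
    filter_upwards [hexp q] with x hx
    simp only [Pi.mul_apply, Function.comp]
    rw [hx]
  have h2 : ∀ q : ℝ, -1 < q → ∫⁻ l, ENNReal.ofReal (Real.exp (q * l))
      ∂(c • (gg n).map fun x => Real.log (Y2 x)) = c * ENNReal.ofReal (mq n q) := by
    intro q hq
    rw [lintegral_smul_measure, lintegral_map (he q) hl, ← ind_1 hI hq, smul_eq_mul]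
    congr 1
    refine lintegral_congr_ae ?_
    filter_upwards [hexp q] with x hx
    rw [hx]
  have h3 : (μ1.map fun x => Real.log (Y2 x)) = c • (gg n).map fun x => Real.log (Y2 x) := by
    refine ext_laplace one_pos (fun q hq => ?_) (fun q hq => ?_)
    · rw [h1 q (abs_lt.1 hq).1, h2 q (abs_lt.1 hq).1]
    · rw [h1 q (abs_lt.1 hq).1]
      exact ENNReal.mul_ne_top hfin ENNReal.ofReal_ne_top
  have h4 : ∀ᵐ x ∂gg n, (Real.log (Y2 x) ∈ Real.exp ⁻¹' T ↔ Y2 x ∈ T) := by
    filter_upwards [ae_Y2 (n := n)] with x hx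
    rw [Set.mem_preimage, Real.exp_log hx]
  have hac : μ1 ≪ gg n := withDensity_absolutelyContinuous _ _
  have h5 := congrArg (fun m => m (Real.exp ⁻¹' T)) h3
  simp only [Measure.smul_apply, smul_eq_mul] at h5
  rw [Measure.map_apply hl (Real.measurable_exp hT), Measure.map_apply hl (Real.measurable_exp hT)]
    at h5
  have h6 : μ1 ((fun x => Real.log (Y2 x)) ⁻¹' (Real.exp ⁻¹' T)) = μ1 (Y2 ⁻¹' T) :=
    measure_congr (by
      filter_upwards [hac h4] with x hx
      exact propext hx)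
  have h7 : gg n ((fun x => Real.log (Y2 x)) ⁻¹' (Real.exp ⁻¹' T)) = gg n (Y2 ⁻¹' T) :=
    measure_congr (by
      filter_upwards [h4] with x hx
      exact propext hx)
  rw [h6, h7, hμ1, withDensity_apply _ (hY hT)] at h5
  exact h5

lemma indep (hI : S_IND) {F : Mt n n → ℝ} (hF : Measurable F)
    (hcl : ∀ X X' : Mt n n, (Matrix.of X).charpoly = (Matrix.of X').charpoly → F X = F X') :
    IndepFun (fun x => F (qt x)) Y2 (gg n) := by
  rw [indepFun_iff_measure_inter_preimage_eq_mul]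
  intro S T hS hT
  have h1 := indep_key hI (n := n) (g := Set.indicator (F ⁻¹' S) 1)
    (measurable_one.indicator (hF hS)) (fun X X' h => by
      by_cases hX : X ∈ F ⁻¹' S
      · rw [Set.indicator_of_mem hX, Set.indicator_of_mem (by rwa [Set.mem_preimage, ← hcl X X' h])]
        rfl
      · rw [Set.indicator_of_notMem hX, Set.indicator_of_notMem
          (by rwa [Set.mem_preimage, ← hcl X X' h])])
  have h2 : ∀ x : Mt n n × Mt n n, Set.indicator (F ⁻¹' S) (1 : Mt n n → ℝ≥0∞) (qt x) =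
      Set.indicator ((fun x => F (qt x)) ⁻¹' S) (1 : Mt n n × Mt n n → ℝ≥0∞) x := by
    intro x
    by_cases hx : F (qt x) ∈ S
    · rw [Set.indicator_of_mem (by exact hx), Set.indicator_of_mem (by exact hx)]
      rfl
    · rw [Set.indicator_of_notMem (by exact hx), Set.indicator_of_notMem (by exact hx)]
  have hm : MeasurableSet ((fun x : Mt n n × Mt n n => F (qt x)) ⁻¹' S) := (hF.comp meas_qt) hS
  simp only [h2] at h1
  have h3 := h1 (by
    rw [lintegral_indicator_one hm]
    exact measure_ne_top _ _) hT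
  rw [lintegral_indicator_one hm, lintegral_indicator_one hm, Measure.restrict_apply hm] at h3
  exact h3

end

end Pool.Agent.K7.H89.GMC
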