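import Pool.Agent.K7.H89.GMC.M3

/-!
Piece MAIN of the project MP_55470d_pr of helper95: asymptotics of Gamma quotients.
-/

set_option autoImplicit false

open MeasureTheory Complex Filter Topology ProbabilityTheory
open scoped ENNReal NNReal BoundedContinuousFunction

namespace Pool.Agent.K7.H89.GMC

open Pool.Agent.R923.SE Pool.Agent.K7.H95.GMC

noncomputable section

/-- logarithm of the Gamma quotient -/
def dG (q : ℝ) (n : ℕ) : ℝ :=
  Real.log (Real.Gamma (n + 1 + q)) - Real.log (Real.Gamma (n + 1)) - q * Real.log n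

lemma log_Gamma_step {x : ℝ} (hx : 0 < x) :
    Real.log (Real.Gamma (x + 1)) = Real.log x + Real.log (Real.Gamma x) := by
  rw [Real.Gamma_add_one hx.ne', Real.log_mul hx.ne' (Real.Gamma_pos_of_pos hx).ne']

lemma log_Gamma_sum {x : ℝ} (hx : 0 < x) (n : ℕ) :
    Real.log (Real.Gamma (n + x)) = Real.log (Real.Gamma x) +
      ∑ m ∈ Finset.range n, Real.log (x + m) := by
  induction n with
  | zero => simp
  | succ n ih =>
    rw [Finset.sum_range_succ, ← add_assoc, ← ih]
    have h : (0 : ℝ) < n + x := by positivity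
    have h2 := log_Gamma_step h
    push_cast
    rw [show (n : ℝ) + 1 + x = n + x + 1 by ring, h2]
    ring_nf

lemma tendsto_dG {q : ℝ} (hq : -1 < q) : Tendsto (dG q) atTop (𝓝 0) := by
  have hq1 : 0 < q + 1 := by linarith
  have h1 := Real.BohrMollerup.tendsto_log_gamma hq1
  have h2 : Tendsto (fun n : ℕ => Real.log (n + 1 + q) - Real.log n) atTop (𝓝 0) := by
    have e1 : Tendsto (fun n : ℕ => 1 + (1 + q) / (n : ℝ)) atTop (𝓝 (1 + 0)) :=
      tendsto_const_nhds.add (tendsto_const_div_atTop_nhds_zero_nat _)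
    rw [add_zero] at e1
    have e2 := (Real.continuousAt_log (one_ne_zero)).tendsto.comp e1
    rw [Real.log_one] at e2
    refine e2.congr' ?_
    filter_upwards [eventually_gt_atTop 0] with n hn
    have hn' : (0 : ℝ) < n := Nat.cast_pos.2 hn
    rw [Function.comp, ← Real.log_div (by linarith) hn'.ne']
    congr 1
    field_simp
    ring
  have h3 : Tendsto (fun n : ℕ => (Real.log (Real.Gamma (q + 1)) -
      Real.BohrMollerup.logGammaSeq (q + 1) n) - (Real.log (n + 1 + q) - Real.log n)) atTop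
      (𝓝 ((Real.log (Real.Gamma (q + 1)) - Real.log (Real.Gamma (q + 1))) - 0)) :=
    (tendsto_const_nhds.sub h1).sub h2
  rw [sub_self, sub_zero] at h3
  refine h3.congr fun n => ?_
  have e1 := log_Gamma_sum hq1 (n + 1)
  have e2 : (((n + 1 : ℕ) : ℝ) + (q + 1)) = (n + 1 + q) + 1 := by push_cast; ring
  have hn : (0 : ℝ) ≤ n := Nat.cast_nonneg n
  rw [e2, log_Gamma_step (by linarith)] at e1
  unfold Real.BohrMollerup.logGammaSeq dG
  have e3 : Real.Gamma ((n : ℝ) + 1) = (n.factorial : ℝ) := Real.Gamma_nat_eq_factorial n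
  rw [e3]
  have e4 : ∑ m ∈ Finset.range (n + 1), Real.log (q + 1 + m) = Real.log (n + 1 + q) +
    Real.log (Real.Gamma (n + 1 + q)) - Real.log (Real.Gamma (q + 1)) := by linarith
  rw [e4]
  ring

lemma tele {r b : ℕ → ℝ} {N : ℕ} (h : ∀ k, N ≤ k → |r (k + 1) - r k| ≤ b k - b (k + 1))
    (hr : Tendsto r atTop (𝓝 0)) (hb : Tendsto b atTop (𝓝 0)) {n : ℕ} (hn : N ≤ n) :
    |r n| ≤ b n := by
  have key : ∀ f : ℕ → ℝ, (∀ k, N ≤ k → f (k + 1) ≤ f k) → Tendsto f atTop (𝓝 0) → 0 ≤ f n := by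
    intro f hf hl
    have h1 : ∀ k, f (n + k) ≤ f n := by
      intro k
      induction k with
      | zero => simp
      | succ k ih => exact (hf (n + k) (by omega)).trans ih
    refine le_of_tendsto hl ?_
    filter_upwards [eventually_ge_atTop n] with m hm
    have := h1 (m - n)
    rwa [Nat.add_sub_cancel' hm] at this
  have k1 := key (fun k => r k + b k) (fun k hk => by
    have := (abs_le.1 (h k hk)).2
    linarith) (by simpa using hr.add hb)
  have k2 := key (fun k => b k - r k) (fun k hk => by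
    have := (abs_le.1 (h k hk)).1
    linarith) (by simpa using hb.sub hr)
  exact abs_le.2 ⟨by linarith, by linarith⟩

lemma dG_step {q : ℝ} (hq : -1 < q) {n : ℕ} (hn : 1 ≤ n) (hqn : 2 * |q| ≤ n + 1) :
    |dG q (n + 1) - dG q n + q * (q + 1) / 2 * (1 / (n : ℝ) - 1 / ((n : ℝ) + 1))| ≤
      (2 * |q| ^ 3 + 2 * |q| + 2 * |q * (q + 1) / 2|) *
        (1 / (2 * n * (n + 1)) - 1 / (2 * (n + 1) * (n + 2))) := by
  have hn1 : (1 : ℝ) ≤ n := by exact_mod_cast hn
  have hn0 : (0 : ℝ) < n := by linarith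
  set h : ℝ := 1 / ((n : ℝ) + 1) with hh
  have h0 : 0 < h := by positivity
  have h1 : h ≤ 1 / 2 := by
    rw [hh]
    exact one_div_le_one_div_of_le (by norm_num) (by linarith)
  have hq2 : |q| * h ≤ 1 / 2 := by
    rw [hh, mul_one_div, div_le_iff₀ (by positivity)]
    linarith
  -- the difference
  have hd : dG q (n + 1) - dG q n = Real.log (1 + q * h) + q * Real.log (1 - h) := by
    unfold dG
    have e1 : (((n + 1 : ℕ) : ℝ) + 1 + q) = (n + 1 + q) + 1 := by push_cast; ring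
    have e2 : (((n + 1 : ℕ) : ℝ) + 1) = (n + 1) + 1 := by push_cast; ring
    have e3 : (0 : ℝ) < n + 1 + q := by linarith
    rw [e1, e2, log_Gamma_step e3, log_Gamma_step (by positivity : (0 : ℝ) < n + 1)]
    have e4 : 1 + q * h = (n + 1 + q) / (n + 1) := by rw [hh]; field_simp
    have e5 : 1 - h = n / (n + 1) := by rw [hh]; field_simp; ring
    rw [e4, e5, Real.log_div e3.ne' (by positivity), Real.log_div hn0.ne' (by positivity)]
    push_cast
    ring
  have a1 := Real.abs_log_sub_add_sum_range_le (x := -(q * h)) (by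
    rw [abs_neg, abs_mul, abs_of_pos h0]; linarith) 2
  have a2 := Real.abs_log_sub_add_sum_range_le (x := h) (by rw [abs_of_pos h0]; linarith) 2
  have b1 : |-(q * h)| ^ (2 + 1) / (1 - |-(q * h)|) ≤ 2 * |q| ^ 3 * h ^ 3 := by
    rw [abs_neg, abs_mul, abs_of_pos h0, div_le_iff₀ (by linarith)]
    have t0 : 0 ≤ |q| ^ 3 * h ^ 3 := by positivity
    have t1 : (|q| * h) ^ (2 + 1) = |q| ^ 3 * h ^ 3 := by ring
    rw [t1]
    nlinarith [mul_nonneg t0 (by linarith : 0 ≤ 1 / 2 - |q| * h)]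
  have b2 : |h| ^ (2 + 1) / (1 - |h|) ≤ 2 * h ^ 3 := by
    rw [abs_of_pos h0, div_le_iff₀ (by linarith)]
    have t0 : 0 ≤ h ^ 3 := by positivity
    have t1 : h ^ (2 + 1) = h ^ 3 := by ring
    rw [t1]
    nlinarith [mul_nonneg t0 (by linarith : 0 ≤ 1 / 2 - h)]
  simp only [Finset.sum_range_succ, Finset.sum_range_zero] at a1 a2
  have a1' := abs_le.1 (a1.trans b1)
  have a2' := abs_le.1 (a2.trans b2)
  norm_num at a1' a2'
  set E1 : ℝ := Real.log (1 + q * h) - q * h + (q * h) ^ 2 / 2 with hE1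
  set E2 : ℝ := Real.log (1 - h) + h + h ^ 2 / 2 with hE2
  have c1 : |E1| ≤ 2 * |q| ^ 3 * h ^ 3 := by
    refine abs_le.2 ⟨?_, ?_⟩ <;> · rw [hE1]; nlinarith [a1'.1, a1'.2]
  have c2 : |E2| ≤ 2 * h ^ 3 := by
    refine abs_le.2 ⟨?_, ?_⟩ <;> · rw [hE2]; nlinarith [a2'.1, a2'.2]
  have hnh : 1 / (n : ℝ) - h = h * (1 / n) := by rw [hh]; field_simp; ring
  have hnh2 : 1 / (n : ℝ) ≤ 2 * h := by
    rw [hh, mul_one_div, div_le_div_iff₀ hn0 (by positivity)]
    linarith
  have hmain : dG q (n + 1) - dG q n + q * (q + 1) / 2 * (1 / (n : ℝ) - h) =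
      E1 + q * E2 + q * (q + 1) / 2 * (h * (1 / n) - h ^ 2) := by
    rw [hd, hnh, hE1, hE2]
    ring
  have hlast : |h * (1 / (n : ℝ)) - h ^ 2| ≤ 2 * h ^ 3 := by
    have : h * (1 / (n : ℝ)) - h ^ 2 = h * (h * (1 / n)) := by
      calc h * (1 / (n : ℝ)) - h ^ 2 = h * (1 / n - h) := by ring
        _ = h * (h * (1 / n)) := by rw [hnh]
    rw [this, abs_of_nonneg (by positivity)]
    nlinarith [mul_pos h0 h0]
  rw [hmain]
  have htri : |E1 + q * E2 + q * (q + 1) / 2 * (h * (1 / n) - h ^ 2)| ≤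
      |E1| + |q| * |E2| + |q * (q + 1) / 2| * |h * (1 / (n : ℝ)) - h ^ 2| := by
    refine (abs_add_le _ _).trans (add_le_add ((abs_add_le _ _).trans ?_) ?_)
    · rw [abs_mul]
    · rw [abs_mul]
  refine htri.trans ?_
  have hK : |E1| + |q| * |E2| + |q * (q + 1) / 2| * |h * (1 / (n : ℝ)) - h ^ 2| ≤
      (2 * |q| ^ 3 + 2 * |q| + 2 * |q * (q + 1) / 2|) * h ^ 3 := by
    have d1 := mul_le_mul_of_nonneg_left c2 (abs_nonneg q)
    have d2 := mul_le_mul_of_nonneg_left hlast (abs_nonneg (q * (q + 1) / 2))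
    nlinarith
  refine hK.trans (mul_le_mul_of_nonneg_left ?_ (by positivity))
  have e6 : 1 / (2 * (n : ℝ) * (n + 1)) - 1 / (2 * (n + 1) * (n + 2)) =
      1 / (n * (n + 1) * (n + 2)) := by
    field_simp
    ring
  rw [e6, hh, one_div, inv_pow, ← one_div]
  refine one_div_le_one_div_of_le (by positivity) ?_
  nlinarith

lemma tendsto_mul_dG {q : ℝ} (hq : -1 < q) :
    Tendsto (fun n : ℕ => (n : ℝ) * dG q n) atTop (𝓝 (q * (q + 1) / 2)) := by
  set c := q * (q + 1) / 2 with hc
  set K := 2 * |q| ^ 3 + 2 * |q| + 2 * |c| with hK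
  obtain ⟨N, hN⟩ := exists_nat_ge (2 * |q| + 1)
  set r : ℕ → ℝ := fun n => dG q n - c * (1 / n) with hr
  set b : ℕ → ℝ := fun n => K * (1 / (2 * n * (n + 1))) with hb
  have hb0 : Tendsto (fun n : ℕ => (n : ℝ) * b n) atTop (𝓝 0) := by
    have h1 : Tendsto (fun n : ℕ => K / 2 * (1 / ((n : ℝ) + 1))) atTop (𝓝 (K / 2 * 0)) :=
      tendsto_const_nhds.mul tendsto_one_div_add_atTop_nhds_zero_nat
    rw [mul_zero] at h1
    refine h1.congr' ?_
    filter_upwards [eventually_gt_atTop 0] with n hn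
    have hn' : (0 : ℝ) < n := Nat.cast_pos.2 hn
    rw [hb]
    field_simp
  have hb1 : Tendsto b atTop (𝓝 0) := by
    refine squeeze_zero' (Eventually.of_forall fun n => by rw [hb]; positivity) ?_ hb0
    filter_upwards [eventually_ge_atTop 1] with n hn
    have hn' : (1 : ℝ) ≤ n := by exact_mod_cast hn
    have : 0 ≤ b n := by rw [hb]; positivity
    nlinarith
  have hr0 : Tendsto r atTop (𝓝 0) := by
    have h1 := (tendsto_dG hq).sub ((tendsto_const_nhds (x := c)).mul
      tendsto_one_div_atTop_nhds_zero_nat)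
    rw [mul_zero, sub_zero] at h1
    exact h1
  have hstep : ∀ k, N ≤ k → |r (k + 1) - r k| ≤ b k - b (k + 1) := by
    intro k hk
    have hk' : (N : ℝ) ≤ k := by exact_mod_cast hk
    have hk1 : 1 ≤ k := by
      have : (1 : ℝ) ≤ k := by
        have := abs_nonneg q
        linarith
      exact_mod_cast this
    have h1 := dG_step hq hk1 (by linarith)
    rw [← hc, ← hK] at h1
    simp only [hr, hb]
    push_cast
    convert h1 using 1
    · congr 1
      ring
    · ring_nf
  have hmain : ∀ᶠ n : ℕ in atTop, |(n : ℝ) * dG q n - c| ≤ n * b n := by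
    filter_upwards [eventually_ge_atTop N, eventually_gt_atTop 0] with n hn hn0
    have hn' : (0 : ℝ) < n := Nat.cast_pos.2 hn0
    have h1 := tele hstep hr0 hb1 hn
    have h2 : (n : ℝ) * dG q n - c = n * r n := by
      simp only [hr]
      field_simp
    rw [h2, abs_mul, abs_of_pos hn']
    exact mul_le_mul_of_nonneg_left h1 hn'.le
  have h3 : Tendsto (fun n : ℕ => (n : ℝ) * dG q n - c) atTop (𝓝 0) := by
    rw [tendsto_zero_iff_abs_tendsto_zero]
    exact squeeze_zero' (Eventually.of_forall fun n => abs_nonneg _) hmain hb0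
  simpa using h3.add_const c

lemma log_mq {q : ℝ} (hq : -1 < q) (n : ℕ) :
    Real.log (mq n q) = n * dG q n + q * (n * Real.log n) := by
  unfold mq dG
  have hn : (0 : ℝ) ≤ n := Nat.cast_nonneg n
  have h1 : 0 < Real.Gamma (n + 1 + q) := Real.Gamma_pos_of_pos (by linarith)
  have h2 : 0 < Real.Gamma ((n : ℝ) + 1) := Real.Gamma_pos_of_pos (by positivity)
  rw [Real.log_pow, Real.log_div h1.ne' h2.ne']
  ring

/-- moments of the normalised factor -/
lemma tendsto_mq {p s : ℝ} (hp : 0 < p) (hp1 : p < 1) (hs : -1 < s) (_hs1 : s < 1) :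
    Tendsto (fun n : ℕ => mq n (p * s) / mq n p ^ s) atTop
      (𝓝 (Real.exp (p ^ 2 * (s ^ 2 - s) / 2))) := by
  have h1 : -1 < p * s := by nlinarith
  have h2 : -1 < p := by linarith
  have h3 := (tendsto_mul_dG h1).sub ((tendsto_mul_dG h2).const_mul s)
  have h4 : p * s * (p * s + 1) / 2 - s * (p * (p + 1) / 2) = p ^ 2 * (s ^ 2 - s) / 2 := by ring
  rw [h4] at h3
  have h5 := (Real.continuous_exp.tendsto _).comp h3
  refine h5.congr fun n => ?_
  have e1 := mq_pos (n := n) h1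
  have e2 := mq_pos (n := n) h2
  have e3 := Real.rpow_pos_of_pos e2 s
  rw [Function.comp, ← Real.exp_log (div_pos e1 e3), Real.log_div e1.ne' e3.ne', Real.log_rpow e2,
    log_mq h1, log_mq h2]
  congr 1
  ring

end

end Pool.Agent.K7.H89.GMC
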