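import Mathlib

/-!
Convergence of random measures on a compact metric space from convergence of the characteristic
functionals (piece RM of the project MP_55470d_pr of helper95).
-/

set_option autoImplicit false

open MeasureTheory Filter Topology
open scoped ENNReal NNReal BoundedContinuousFunction

namespace Pool.Agent.K7.H89.GMC.RM

noncomputable section

variable {K : Type} [MetricSpace K] [CompactSpace K] [MeasurableSpace K] [BorelSpace K]

/-- a sequence of functions starting with `1` and dense in `C(K, ℝ)` -/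
def FF (K : Type) [MetricSpace K] [CompactSpace K] : ℕ → C(K, ℝ)
  | 0 => 1
  | j + 1 => TopologicalSpace.denseSeq C(K, ℝ) j

/-- the coordinates of a finite measure -/
def T (m : FiniteMeasure K) (j : ℕ) : ℝ := ∫ x, FF K j x ∂(m : Measure K)

omit [BorelSpace K] in
lemma integrable_cm [OpensMeasurableSpace K] (m : Measure K) [IsFiniteMeasure m] (f : C(K, ℝ)) :
    Integrable f m :=
  (BoundedContinuousFunction.mkOfCompact f).integrable m

lemma continuous_int (f : C(K, ℝ)) :
    Continuous fun m : FiniteMeasure K => ∫ x, f x ∂(m : Measure K) := by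
  refine continuous_iff_continuousAt.2 fun m => ?_
  exact (FiniteMeasure.tendsto_iff_forall_integral_tendsto.1 tendsto_id
    (BoundedContinuousFunction.mkOfCompact f))

lemma continuous_T : Continuous (T : FiniteMeasure K → ℕ → ℝ) :=
  continuous_pi fun _ => continuous_int _

omit [BorelSpace K] in
lemma T_zero (m : FiniteMeasure K) : T m 0 = m.mass := by
  simp only [T, FF, ContinuousMap.one_apply, integral_const, smul_eq_mul, mul_one]
  rfl

lemma eq_of_dense {m m' : FiniteMeasure K} (h : T m = T m') : m = m' := by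
  have h1 : ∀ f : C(K, ℝ), ∫ x, f x ∂(m : Measure K) = ∫ x, f x ∂(m' : Measure K) := by
    intro f
    have hc : ∀ m : FiniteMeasure K, Continuous fun f : C(K, ℝ) => ∫ x, f x ∂(m : Measure K) := by
      intro m
      refine (LipschitzWith.of_dist_le_mul (K := m.mass) fun f g => ?_).continuous
      rw [dist_eq_norm, ← integral_sub (integrable_cm _ f) (integrable_cm _ g)]
      refine (norm_integral_le_of_norm_le_const (C := dist f g) (Eventually.of_forall fun x => ?_)).trans ?_
      · rw [← dist_eq_norm]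
        exact ContinuousMap.dist_apply_le_dist x
      · rw [mul_comm]
        rfl
    refine congrFun (Continuous.ext_on (TopologicalSpace.denseRange_denseSeq C(K, ℝ))
      (hc m) (hc m') ?_) f
    rintro _ ⟨j, rfl⟩
    exact congrFun h (j + 1)
  refine FiniteMeasure.toMeasure_injective ?_
  exact ext_of_forall_integral_eq_of_IsFiniteMeasure fun f => h1 f.toContinuousMap

lemma isProperMap_T : IsProperMap (T : FiniteMeasure K → ℕ → ℝ) := by
  rw [isProperMap_iff_ultrafilter_of_t2]
  refine ⟨continuous_T, fun U y hy => ?_⟩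
  have h0 : Tendsto (fun m : FiniteMeasure K => T m 0) U (𝓝 (y 0)) := (tendsto_pi_nhds.1 hy) 0
  have h1 : ∀ᶠ m : FiniteMeasure K in U, T m 0 < y 0 + 1 :=
    h0.eventually (gt_mem_nhds (by linarith))
  have h2 : {m : FiniteMeasure K | m.mass ≤ (y 0 + 1).toNNReal} ∈ U := by
    filter_upwards [h1] with m hm
    rw [T_zero] at hm
    rw [← NNReal.coe_le_coe]
    exact hm.le.trans (Real.le_coe_toNNReal _)
  obtain ⟨m, -, hm⟩ := (isCompact_setOfPred_finiteMeasure_le_of_compactSpace K
    (y 0 + 1).toNNReal).ultrafilter_le_nhds U (le_principal_iff.2 h2)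
  exact ⟨m, hm⟩

lemma isClosedEmbedding_T : IsClosedEmbedding (T : FiniteMeasure K → ℕ → ℝ) :=
  .of_continuous_injective_isClosedMap continuous_T (fun _ _ h => eq_of_dense h)
    isProperMap_T.isClosedMap

instance : PolishSpace (FiniteMeasure K) := isClosedEmbedding_T.polishSpace

/-- the Borel structure -/
local instance instMS : MeasurableSpace (FiniteMeasure K) := borel _

local instance instBS : BorelSpace (FiniteMeasure K) := ⟨rfl⟩

lemma measurableEmbedding_T : MeasurableEmbedding (T : FiniteMeasure K → ℕ → ℝ) :=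
  isClosedEmbedding_T.measurableEmbedding

lemma aemeasurable_of_int {Ω : Type} [MeasurableSpace Ω] {P : Measure Ω}
    {M : Ω → FiniteMeasure K}
    (h : ∀ f : C(K, ℝ), AEMeasurable (fun ω => ∫ x, f x ∂(M ω : Measure K)) P) :
    AEMeasurable M P := by
  rw [← measurableEmbedding_T.aemeasurable_comp_iff]
  exact aemeasurable_pi_lambda _ fun j => h _

/-- the exponential of the integral of `f` -/
def ef (f : C(K, ℝ)) (m : FiniteMeasure K) : ℂ :=
  Complex.exp (((∫ x, f x ∂(m : Measure K) : ℝ) : ℂ) * Complex.I)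

lemma continuous_ef (f : C(K, ℝ)) : Continuous (ef f) := by
  unfold ef
  have := continuous_int f
  fun_prop

omit [CompactSpace K] [BorelSpace K] in
lemma norm_ef (f : C(K, ℝ)) (m : FiniteMeasure K) : ‖ef f m‖ = 1 := by
  unfold ef
  exact Complex.norm_exp_ofReal_mul_I _

lemma eq_of_ef {Q Q' : Measure (FiniteMeasure K)} [IsFiniteMeasure Q] [IsFiniteMeasure Q']
    (h : ∀ f : C(K, ℝ), ∫ m, ef f m ∂Q = ∫ m, ef f m ∂Q') : Q = Q' := by
  have hT : Measurable (T : FiniteMeasure K → ℕ → ℝ) := measurableEmbedding_T.measurable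
  have h1 : Q.map T = Q'.map T := by
    refine IsProjectiveLimit.unique (P := fun I => (Q'.map T).map I.restrict) (fun I => ?_)
      (fun I => rfl)
    have h2 : ((Q.map T).map I.restrict).map (MeasurableEquiv.toLp 2 (I → ℝ)) =
        ((Q'.map T).map I.restrict).map (MeasurableEquiv.toLp 2 (I → ℝ)) := by
      refine Measure.ext_of_charFun (funext fun t => ?_)
      have h3 : ∀ Q : Measure (FiniteMeasure K), charFun (((Q.map T).map I.restrict).map
          (MeasurableEquiv.toLp 2 (I → ℝ))) t = ∫ m, ef (∑ i : I, t i • FF K i) m ∂Q := by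
        intro Q
        have hr : Measurable (I.restrict : (ℕ → ℝ) → I → ℝ) := Finset.measurable_restrict I
        have he : Measurable (MeasurableEquiv.toLp 2 (I → ℝ)) :=
          (MeasurableEquiv.toLp 2 (I → ℝ)).measurable
        have hg : Measurable fun x : EuclideanSpace ℝ I =>
            Complex.exp ((inner ℝ x t : ℝ) * Complex.I) := by fun_prop
        rw [charFun_apply, integral_map he.aemeasurable (by exact hg.aestronglyMeasurable),
          integral_map hr.aemeasurable (by exact (hg.comp he).aestronglyMeasurable),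
          integral_map hT.aemeasurable (by exact ((hg.comp he).comp hr).aestronglyMeasurable)]
        refine integral_congr_ae (Eventually.of_forall fun m => ?_)
        simp only [ef]
        congr 3
        have : ∀ x, (∑ i : I, t i • FF K i) x = ∑ i : I, t i * FF K i x := by
          intro x
          simp
        simp only [this]
        rw [integral_finsetSum _ (fun i _ => (integrable_cm _ _).const_mul _)]
        simp only [integral_const_mul]
        rw [PiLp.inner_apply]
        refine Finset.sum_congr rfl fun i _ => ?_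
        simp [T]
      rw [h3, h3, h]
    exact (MeasurableEquiv.toLp 2 (I → ℝ)).map_measurableEquiv_injective h2
  have h4 : ∀ Q : Measure (FiniteMeasure K), (Q.map T).comap T = Q := fun Q =>
    measurableEmbedding_T.comap_map Q
  rw [← h4 Q, h1, h4]

theorem main (K : Type) [MetricSpace K] [CompactSpace K] [MeasurableSpace K] [BorelSpace K]
    (Ω : ℕ → Type) [∀ n, MeasurableSpace (Ω n)] (P : ∀ n, Measure (Ω n))
    [∀ n, IsProbabilityMeasure (P n)] (M : ∀ n, Ω n → FiniteMeasure K) (C : ℝ≥0)
    (hM : ∀ n (f : C(K, ℝ)), AEMeasurable (fun ω => ∫ x, f x ∂(M n ω : Measure K)) (P n))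
    (hC : ∀ n, ∫⁻ ω, (M n ω : Measure K) Set.univ ∂P n ≤ C)
    (hc : ∀ f : C(K, ℝ), ∃ c : ℂ, Tendsto (fun n => ∫ ω, Complex.exp
      (((∫ x, f x ∂(M n ω : Measure K) : ℝ) : ℂ) * Complex.I) ∂P n) atTop (𝓝 c)) :
    ∃ (Ω' : Type) (_ : MeasurableSpace Ω') (P' : Measure Ω') (_ : IsProbabilityMeasure P')
      (M' : Ω' → FiniteMeasure K),
      Measurable[_, borel (FiniteMeasure K)] M' ∧
      (∀ n, @AEMeasurable _ _ (borel (FiniteMeasure K)) _ (M n) (P n)) ∧
      ∀ Φ : FiniteMeasure K →ᵇ ℝ,
        Tendsto (fun n => ∫ ω, Φ (M n ω) ∂P n) atTop (𝓝 (∫ ω, Φ (M' ω) ∂P')) := by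
  have hMs : ∀ n, AEMeasurable (M n) (P n) := fun n => aemeasurable_of_int (hM n)
  let Q : ℕ → ProbabilityMeasure (FiniteMeasure K) := fun n =>
    ⟨(P n).map (M n), Measure.isProbabilityMeasure_map (hMs n)⟩
  have hQi : ∀ n (g : FiniteMeasure K → ℂ), Continuous g →
      ∫ m, g m ∂(Q n : Measure (FiniteMeasure K)) = ∫ ω, g (M n ω) ∂P n := fun n g hg =>
    integral_map (hMs n) hg.aestronglyMeasurable
  have hQr : ∀ n (g : FiniteMeasure K → ℝ), Continuous g →
      ∫ m, g m ∂(Q n : Measure (FiniteMeasure K)) = ∫ ω, g (M n ω) ∂P n := fun n g hg =>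
    integral_map (hMs n) hg.aestronglyMeasurable
  have hcomp : IsCompact (closure (Set.range Q)) := by
    refine isCompact_closure_of_isTightMeasureSet ?_
    rw [isTightMeasureSet_iff_exists_isCompact_measure_compl_le]
    intro ε hε
    rcases eq_or_ne ε ∞ with rfl | hεt
    · exact ⟨∅, isCompact_empty, fun μ _ => le_top⟩
    set e := ε.toNNReal with he
    have he0 : 0 < e := ENNReal.toNNReal_pos hε.ne' hεt
    have hee : (e : ℝ≥0∞) = ε := ENNReal.coe_toNNReal hεt
    set R : ℝ≥0 := C / e + 1 with hR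
    have hR0 : 0 < R := by positivity
    refine ⟨{m : FiniteMeasure K | m.mass ≤ R},
      isCompact_setOfPred_finiteMeasure_le_of_compactSpace K R, ?_⟩
    rintro _ ⟨_, ⟨n, rfl⟩, rfl⟩
    have hcl : IsClosed {m : FiniteMeasure K | m.mass ≤ R} :=
      (isCompact_setOfPred_finiteMeasure_le_of_compactSpace K R).isClosed
    have h1 : (Q n : Measure (FiniteMeasure K)) {m : FiniteMeasure K | m.mass ≤ R}ᶜ =
        P n (M n ⁻¹' {m : FiniteMeasure K | m.mass ≤ R}ᶜ) :=
      Measure.map_apply_of_aemeasurable (hMs n) hcl.measurableSet.compl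
    rw [h1]
    have h2 : AEMeasurable (fun ω => (M n ω : Measure K) Set.univ) (P n) := by
      have := (hM n 1).ennreal_ofReal
      refine this.congr (Eventually.of_forall fun ω => ?_)
      simp only [ContinuousMap.one_apply, integral_const, smul_eq_mul, mul_one]
      exact ENNReal.ofReal_toReal (measure_ne_top _ _)
    have h3 : P n (M n ⁻¹' {m : FiniteMeasure K | m.mass ≤ R}ᶜ) ≤
        P n {ω | (R : ℝ≥0∞) ≤ (M n ω : Measure K) Set.univ} := by
      refine measure_mono fun ω hω => ?_
      have hω' : ¬ (M n ω).mass ≤ R := hω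
      rw [Set.mem_ofPred_eq, ← FiniteMeasure.ennreal_mass]
      exact ENNReal.coe_le_coe.2 (not_le.1 hω').le
    refine h3.trans ((meas_ge_le_lintegral_div h2 (by simpa using hR0.ne')
      ENNReal.coe_ne_top).trans ?_)
    refine ENNReal.div_le_of_le_mul ?_
    refine (hC n).trans ?_
    rw [← hee, ← ENNReal.coe_mul, ENNReal.coe_le_coe, hR, mul_add, mul_div_cancel₀ _ he0.ne']
    simp
  have hlim : ∀ U : Ultrafilter ℕ, ∃ Q' : ProbabilityMeasure (FiniteMeasure K),
      Tendsto Q U (𝓝 Q') := by
    intro U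
    obtain ⟨Q', -, hQ'⟩ := hcomp.ultrafilter_le_nhds (U.map Q)
      (.trans (by simp) (monotone_principal subset_closure))
    exact ⟨Q', hQ'⟩
  have hef : ∀ (U : Ultrafilter ℕ) (Q' : ProbabilityMeasure (FiniteMeasure K)),
      (U : Filter ℕ) ≤ atTop → Tendsto Q U (𝓝 Q') → ∀ f : C(K, ℝ),
      ∫ m, ef f m ∂(Q' : Measure (FiniteMeasure K)) = (hc f).choose := by
    intro U Q' hU hQ' f
    have h1 := (hc f).choose_spec.mono_left hU
    have h2 := (ProbabilityMeasure.tendsto_iff_forall_integral_rclike_tendsto ℂ).1 hQ'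
      (BoundedContinuousFunction.ofNormedAddCommGroup (ef f) (continuous_ef f) 1
        fun m => (norm_ef f m).le)
    refine tendsto_nhds_unique h2 (h1.congr fun n => ?_)
    exact (hQi n _ (continuous_ef f)).symm
  obtain ⟨Q0, hQ0⟩ := hlim (hyperfilter ℕ)
  have hQ : Tendsto Q atTop (𝓝 Q0) := by
    refine (Filter.tendsto_iff_ultrafilter _ _ _).2 fun U hU => ?_
    obtain ⟨Q', hQ'⟩ := hlim U
    have : (Q' : Measure (FiniteMeasure K)) = Q0 :=
      eq_of_ef fun f => by
        rw [hef U Q' hU hQ' f, hef (hyperfilter ℕ) Q0 Nat.hyperfilter_le_atTop hQ0 f]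
    rwa [show Q' = Q0 from Subtype.ext this] at hQ'
  refine ⟨FiniteMeasure K, borel _, (Q0 : Measure (FiniteMeasure K)), Q0.2, id,
    measurable_id, hMs, fun Φ => ?_⟩
  have := ProbabilityMeasure.tendsto_iff_forall_integral_tendsto.1 hQ Φ
  exact this.congr fun n => hQr n _ Φ.continuous

end

end Pool.Agent.K7.H89.GMC.RM
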