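import Pool.Agent.K7.H95.GMC.Defs
import Pool.Agent.K7.H89.GMC.RM

/-!
Piece RM of the project MP_55470d_pr of helper95.
-/

set_option autoImplicit false

namespace Pool.Agent.K7.H89.GMC

theorem s_RM : Pool.Agent.K7.H95.GMC.S_RM := by
  intro K _ _ _ _ Ω _ P _ M C hM hC hc
  exact RM.main K Ω P M C hM hC hc

end Pool.Agent.K7.H89.GMC
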