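import Pool.Agent.K7.H89.GMC.M4
import Pool.Agent.K7.H89.GMC.DECs
import Pool.Agent.K7.H89.GMC.RMs

/-!
Piece MAIN of the project MP_55470d_pr of helper95: the random measures as functions of `A B⁻¹`.
-/

set_option autoImplicit false

open MeasureTheory Complex Filter Topology ProbabilityTheory
open scoped ENNReal NNReal BoundedContinuousFunction

namespace Pool.Agent.K7.H89.GMC

open Pool.Agent.R923.SE Pool.Agent.K7.H95.GMC

noncomputable section

variable {n : ℕ}

/-- `∫ f dM` as a function of the matrix `A B⁻¹` -/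
def Xf (p : ℝ) (f : S2 → ℝ) (X : Mt n n) : ℝ := ∫ u, f u * (dn p X u / cn n p) ∂nu

lemma meas_int (hI : S_IND) (p : ℝ) (f : C(S2, ℝ)) :
    Measurable fun z : Mt n n × S2 => f z.2 * (dn p z.1 z.2 / cn n p) :=
  (f.continuous.measurable.comp measurable_snd).mul ((meas_dn hI p).div_const _)

lemma meas_Xf (hI : S_IND) (hA : S_ARCH) (p : ℝ) (f : C(S2, ℝ)) :
    Measurable (Xf p f : Mt n n → ℝ) := by
  have := hA.1
  exact (meas_int hI p f).stronglyMeasurable.integral_prod_right'.measurable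

lemma Xf_class (p : ℝ) (f : S2 → ℝ) {X X' : Mt n n}
    (h : (Matrix.of X).charpoly = (Matrix.of X').charpoly) : Xf p f X = Xf p f X' := by
  unfold Xf
  simp only [dn_class p _ h]

lemma meas_dn_u (hI : S_IND) (p : ℝ) (X : Mt n n) : Measurable fun u : S2 => dn p X u := by
  have h : Measurable fun u : S2 => ((X, u) : Mt n n × S2) := measurable_const.prodMk measurable_id
  have := (meas_dn hI p).comp h
  exact this

lemma meas_dn_x (hI : S_IND) (p : ℝ) (u : S2) : Measurable fun x : Mt n n × Mt n n =>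
    dn p (qt x) u := by
  have h : Measurable fun x : Mt n n × Mt n n => ((qt x, u) : Mt n n × S2) :=
    meas_qt.prodMk measurable_const
  have := (meas_dn hI p).comp h
  exact this

lemma fd_nonneg {p : ℝ} (hp : -1 < p) (X : Mt n n) (u : S2) : 0 ≤ dn p X u / cn n p :=
  div_nonneg (dn_nonneg _ _ _) (cn_pos hp).le

lemma fd_le {p : ℝ} (hp : 0 ≤ p) (X : Mt n n) (u : S2) : dn p X u / cn n p ≤ 1 / cn n p :=
  div_le_div_of_nonneg_right (dn_le hp _ _) (cn_pos (by linarith)).le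

lemma int_fd (hI : S_IND) (hA : S_ARCH) {p : ℝ} (hp : 0 ≤ p) (f : C(S2, ℝ)) (X : Mt n n) :
    Integrable (fun u => f u * (dn p X u / cn n p)) nu := by
  have := hA.1
  refine Integrable.of_bound ((meas_int hI p f).comp
    (measurable_const.prodMk measurable_id)).aestronglyMeasurable (‖f‖ * (1 / cn n p))
    (Eventually.of_forall fun u => ?_)
  rw [norm_mul, Real.norm_of_nonneg (fd_nonneg (by linarith) X u)]
  exact mul_le_mul (f.norm_coe_le_norm u) (fd_le hp X u) (fd_nonneg (by linarith) X u)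
    (norm_nonneg _)

lemma Xf_abs (hI : S_IND) (hA : S_ARCH) {p : ℝ} (hp : 0 ≤ p) (f : C(S2, ℝ)) (X : Mt n n) :
    |Xf p f X| ≤ ‖f‖ * Xf p (1 : C(S2, ℝ)) X := by
  unfold Xf
  rw [← integral_const_mul ‖f‖, ← Real.norm_eq_abs]
  refine (norm_integral_le_of_norm_le ((int_fd hI hA hp 1 X).const_mul ‖f‖)
    (Eventually.of_forall fun u => ?_))
  rw [norm_mul, Real.norm_of_nonneg (fd_nonneg (by linarith) X u)]
  simp only [ContinuousMap.one_apply, one_mul]
  exact mul_le_mul_of_nonneg_right (f.norm_coe_le_norm u) (fd_nonneg (by linarith) X u)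

lemma Xf_one_nonneg {p : ℝ} (hp : 0 ≤ p) (X : Mt n n) : 0 ≤ Xf p (1 : C(S2, ℝ)) X :=
  integral_nonneg fun u => by
    simp only [ContinuousMap.one_apply, one_mul]
    exact fd_nonneg (by linarith) X u

lemma isFin (hI : S_IND) (hA : S_ARCH) {γ : ℝ} (hγ : 0 < γ) (x : Mt n n × Mt n n) :
    IsFiniteMeasure (Mn γ x) := by
  have := hA.1
  rw [Mn_eq hI hA hγ]
  refine isFiniteMeasure_withDensity (ne_of_lt ?_)
  refine lt_of_le_of_lt (lintegral_mono (g := fun _ => ENNReal.ofReal (1 / cn n (γ / 2)))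
    fun u => ENNReal.ofReal_le_ofReal (fd_le (by positivity) _ _)) ?_
  rw [lintegral_const]
  exact ENNReal.mul_lt_top ENNReal.ofReal_lt_top (measure_lt_top _ _)

lemma MF_coe (hI : S_IND) (hA : S_ARCH) {γ : ℝ} (hγ : 0 < γ) (x : Mt n n × Mt n n) :
    (MF γ x : Measure S2) = Mn γ x := by
  unfold MF
  rw [dif_pos (isFin hI hA hγ x)]
  rfl

lemma int_MF (hI : S_IND) (hA : S_ARCH) {γ : ℝ} (hγ : 0 < γ) (f : C(S2, ℝ))
    (x : Mt n n × Mt n n) : ∫ u, f u ∂(MF γ x : Measure S2) = Xf (γ / 2) f (qt x) := by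
  have hm : Measurable fun u => ENNReal.ofReal (fd γ x u) :=
    ((meas_dn_u hI _ _).div_const _).ennreal_ofReal
  rw [MF_coe hI hA hγ, Mn_eq hI hA hγ, integral_withDensity_eq_integral_toReal_smul hm
    (Eventually.of_forall fun u => ENNReal.ofReal_lt_top)]
  refine integral_congr_ae (Eventually.of_forall fun u => ?_)
  simp only [smul_eq_mul, fd]
  rw [ENNReal.toReal_ofReal (fd_nonneg (by linarith) _ _), mul_comm]

/-- the normalised factor -/
def yn (p : ℝ) (x : Mt n n × Mt n n) : ℝ := Y2 x ^ p / mq n p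

lemma Nh_eq {x : Mt n n × Mt n n} (hx : dt x.2 ≠ 0) {p : ℝ} (hp : -1 < p) (u : S2) :
    Nh n p u x = yn p x * (dn p (qt x) u / cn n p) := by
  have h1 := (NN_pos (n := n) hp).ne'
  have h2 := (mq_pos (n := n) hp).ne'
  rw [Nh, comb_eq hx, yn, cn]
  field_simp

lemma int_Nh {x : Mt n n × Mt n n} (hx : dt x.2 ≠ 0) {p : ℝ} (hp : -1 < p) (f : S2 → ℝ) :
    ∫ u, f u * Nh n p u x ∂nu = yn p x * Xf p f (qt x) := by
  rw [Xf, ← integral_const_mul]
  refine integral_congr_ae (Eventually.of_forall fun u => ?_)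
  simp only [Nh_eq hx hp]
  ring

lemma meas_yn (hI : S_IND) (p : ℝ) : Measurable (yn p : Mt n n × Mt n n → ℝ) :=
  ((meas_Y2 hI).pow_const p).div_const _

lemma yn_pos {p : ℝ} (hp : -1 < p) : ∀ᵐ x ∂gg n, 0 < yn p x := by
  filter_upwards [ae_Y2 (n := n)] with x hx
  have := mq_pos (n := n) hp
  unfold yn
  positivity

lemma lint_fd (hI : S_IND) {p : ℝ} (hp : -1 < p) (u : S2) :
    ∫⁻ x, ENNReal.ofReal (dn p (qt x) u / cn n p) ∂gg n = 1 := by
  have h1 := cn_pos (n := n) hp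
  simp only [ENNReal.ofReal_div_of_pos h1]
  have h2 : ENNReal.ofReal (cn n p) ≠ 0 := by simpa using h1
  simp only [div_eq_mul_inv]
  rw [lintegral_mul_const _ (meas_dn_x hI p u).ennreal_ofReal, lint_dn hI hp, ← div_eq_mul_inv,
    ENNReal.div_self h2 ENNReal.ofReal_ne_top]

lemma mass_eq (hI : S_IND) (hA : S_ARCH) {γ : ℝ} (hγ : 0 < γ) :
    ∫⁻ x, (MF γ x : Measure S2) Set.univ ∂gg n = 1 := by
  have := hA.1
  have h1 : ∀ x : Mt n n × Mt n n, (MF γ x : Measure S2) Set.univ =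
      ∫⁻ u, ENNReal.ofReal (dn (γ / 2) (qt x) u / cn n (γ / 2)) ∂nu := by
    intro x
    rw [MF_coe hI hA hγ, Mn_eq hI hA hγ, withDensity_apply _ MeasurableSet.univ,
      Measure.restrict_univ]
    rfl
  simp only [h1]
  rw [lintegral_lintegral_swap]
  · simp only [lint_fd hI (by linarith : -1 < γ / 2)]
    simp
  · exact (((meas_dn hI (γ / 2)).comp ((meas_qt.comp measurable_fst).prodMk
      measurable_snd)).div_const _).ennreal_ofReal.aemeasurable

lemma ofReal_Xf_one (hI : S_IND) (hA : S_ARCH) {p : ℝ} (hp : 0 ≤ p) (X : Mt n n) :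
    ENNReal.ofReal (Xf p (1 : C(S2, ℝ)) X) = ∫⁻ u, ENNReal.ofReal (dn p X u / cn n p) ∂nu := by
  have h := int_fd hI hA hp 1 X
  simp only [ContinuousMap.one_apply, one_mul] at h
  unfold Xf
  simp only [ContinuousMap.one_apply, one_mul]
  rw [ofReal_integral_eq_lintegral_ofReal h (Eventually.of_forall fun u =>
    fd_nonneg (by linarith) X u)]

lemma lint_Xf_one (hI : S_IND) (hA : S_ARCH) {p : ℝ} (hp : 0 ≤ p) :
    ∫⁻ x, ENNReal.ofReal (Xf p (1 : C(S2, ℝ)) (qt x)) ∂gg n = 1 := by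
  have := hA.1
  simp only [ofReal_Xf_one hI hA hp]
  rw [lintegral_lintegral_swap]
  · simp only [lint_fd hI (by linarith : -1 < p)]
    simp
  · exact (((meas_dn hI p).comp ((meas_qt.comp measurable_fst).prodMk
      measurable_snd)).div_const _).ennreal_ofReal.aemeasurable

/-- the mean -/
lemma mean_Xf (hI : S_IND) (hA : S_ARCH) {p : ℝ} (hp : 0 ≤ p) (f : C(S2, ℝ)) :
    ∫ x, Xf p f (qt x) ∂gg n = ∫ u, f u ∂nu := by
  have := hA.1
  unfold Xf
  rw [integral_integral_swap]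
  · refine integral_congr_ae (Eventually.of_forall fun u => ?_)
    simp only
    rw [integral_const_mul, integral_eq_lintegral_of_nonneg_ae
      (Eventually.of_forall fun x => fd_nonneg (by linarith) _ _)
      ((meas_dn_x hI p u).div_const _).aestronglyMeasurable, lint_fd hI (by linarith)]
    simp
  · refine Integrable.of_bound (((meas_int hI p f).comp
      ((meas_qt.comp measurable_fst).prodMk measurable_snd)).aestronglyMeasurable)
      (‖f‖ * (1 / cn n p)) (Eventually.of_forall fun z => ?_)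
    simp only [Function.uncurry]
    rw [norm_mul, Real.norm_of_nonneg (fd_nonneg (by linarith) _ _)]
    exact mul_le_mul (f.norm_coe_le_norm _) (fd_le hp _ _) (fd_nonneg (by linarith) _ _)
      (norm_nonneg _)

/-- moments of the normalised factor -/
lemma mom_yn (hI : S_IND) {p s : ℝ} (hp : -1 < p) (hps : -1 < p * s) :
    ∫⁻ x, ENNReal.ofReal (yn p x ^ s) ∂gg n = ENNReal.ofReal (mq n (p * s) / mq n p ^ s) := by
  have h1 := mq_pos (n := n) hp
  have h2 := Real.rpow_pos_of_pos h1 s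
  have h3 : ∀ᵐ x ∂gg n, ENNReal.ofReal (yn p x ^ s) =
      ENNReal.ofReal (Y2 x ^ (p * s)) * (ENNReal.ofReal (mq n p ^ s))⁻¹ := by
    filter_upwards [ae_Y2 (n := n)] with x hx
    rw [yn, Real.div_rpow (Real.rpow_nonneg hx.le _) h1.le, ← Real.rpow_mul hx.le,
      ENNReal.ofReal_div_of_pos h2, div_eq_mul_inv]
  rw [lintegral_congr_ae h3, lintegral_mul_const _ ((meas_Y2 hI).pow_const _).ennreal_ofReal,
    ind_1 hI hps, ENNReal.ofReal_div_of_pos h2, div_eq_mul_inv]

lemma indep_yn (hI : S_IND) (hA : S_ARCH) (p : ℝ) (f : C(S2, ℝ)) :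
    IndepFun (fun x : Mt n n × Mt n n => Xf p f (qt x)) (yn p) (gg n) := by
  have h1 := indep hI (meas_Xf (n := n) hI hA p f) (fun X X' h => Xf_class p f h)
  exact h1.comp (φ := id) (ψ := fun y => y ^ p / mq n p) measurable_id
    ((measurable_id.pow_const p).div_const _)

/-- log-convexity of Gamma -/
lemma mq_sq {p : ℝ} (hp : 0 ≤ p) : mq n p ^ 2 ≤ mq n (2 * p) := by
  unfold mq
  rw [← pow_mul, mul_comm n 2, pow_mul]
  refine pow_le_pow_left₀ (by positivity) ?_ n
  have hn : (0 : ℝ) ≤ n := Nat.cast_nonneg n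
  have h1 : 0 < Real.Gamma ((n : ℝ) + 1) := Real.Gamma_pos_of_pos (by positivity)
  have h2 : 0 < Real.Gamma (n + 1 + p) := Real.Gamma_pos_of_pos (by positivity)
  have h3 : 0 < Real.Gamma (n + 1 + 2 * p) := Real.Gamma_pos_of_pos (by positivity)
  have h4 := Real.convexOn_log_Gamma.2 (x := (n : ℝ) + 1) (y := n + 1 + 2 * p)
    (Set.mem_Ioi.2 (by positivity)) (Set.mem_Ioi.2 (by positivity))
    (by norm_num : (0 : ℝ) ≤ 1 / 2) (by norm_num : (0 : ℝ) ≤ 1 / 2) (by norm_num)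
  have e : (1 / 2 : ℝ) • ((n : ℝ) + 1) + (1 / 2 : ℝ) • ((n : ℝ) + 1 + 2 * p) = n + 1 + p := by
    simp only [smul_eq_mul]; ring
  rw [e] at h4
  simp only [Function.comp, smul_eq_mul] at h4
  have h5 : Real.Gamma (n + 1 + p) ^ 2 ≤ Real.Gamma ((n : ℝ) + 1) * Real.Gamma (n + 1 + 2 * p) := by
    rw [← Real.log_le_log_iff (by positivity) (by positivity), Real.log_pow,
      Real.log_mul h1.ne' h3.ne']
    push_cast
    linarith
  rw [div_pow, div_le_div_iff₀ (by positivity) h1]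
  calc Real.Gamma (n + 1 + p) ^ 2 * Real.Gamma ((n : ℝ) + 1) ≤
      Real.Gamma ((n : ℝ) + 1) * Real.Gamma (n + 1 + 2 * p) * Real.Gamma ((n : ℝ) + 1) :=
        mul_le_mul_of_nonneg_right h5 h1.le
    _ = _ := by ring

/-- second moment of the total mass -/
lemma sq_Xf (hI : S_IND) (hA : S_ARCH) {p : ℝ} (hp : 0 < p) {C : ℝ}
    (hC : ∫⁻ x, ENNReal.ofReal ((∫ u, Nh n p u x ∂nu) ^ 2) ∂gg n ≤ ENNReal.ofReal C) :
    ∫⁻ x, ENNReal.ofReal (Xf p (1 : C(S2, ℝ)) (qt x) ^ 2) ∂gg n ≤ ENNReal.ofReal C := by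
  have hp1 : -1 < p := by linarith
  have hp2 : -1 < 2 * p := by linarith
  have h1 := mq_pos (n := n) hp1
  have h2 := mq_pos (n := n) hp2
  refine le_trans ?_ hC
  have h3 : ∀ᵐ x ∂gg n, ENNReal.ofReal ((∫ u, Nh n p u x ∂nu) ^ 2) =
      ENNReal.ofReal (Xf p (1 : C(S2, ℝ)) (qt x) ^ 2) * ENNReal.ofReal (Y2 x ^ (2 * p)) *
        (ENNReal.ofReal (mq n p ^ 2))⁻¹ := by
    filter_upwards [ae_dt2 (n := n)] with x hx
    have e1 := int_Nh hx hp1 (1 : C(S2, ℝ))
    simp only [ContinuousMap.one_apply, one_mul] at e1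
    have e2 : Y2 x ^ (2 * p) = (Y2 x ^ p) ^ 2 := by
      rw [← Real.rpow_natCast, ← Real.rpow_mul (Y2_pos hx).le, mul_comm]
      norm_num
    rw [e1, e2, ← ENNReal.ofReal_mul (by positivity), ← ENNReal.ofReal_inv_of_pos (by positivity),
      ← ENNReal.ofReal_mul (by positivity), yn]
    congr 1
    field_simp
  have hm : Measurable fun x : Mt n n × Mt n n =>
      ENNReal.ofReal (Xf p (1 : C(S2, ℝ)) (qt x) ^ 2) * ENNReal.ofReal (Y2 x ^ (2 * p)) :=
    (((meas_Xf hI hA p 1).comp meas_qt).pow_const 2).ennreal_ofReal.mul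
      ((meas_Y2 hI).pow_const _).ennreal_ofReal
  rw [lintegral_congr_ae h3, lintegral_mul_const _ hm,
    ind_g hI (g := fun X => ENNReal.ofReal (Xf p (1 : C(S2, ℝ)) X ^ 2))
    ((meas_Xf hI hA p 1).pow_const 2).ennreal_ofReal (fun X X' h => by rw [Xf_class p _ h]) hp2,
    mul_assoc]
  have h4 : 1 ≤ ENNReal.ofReal (mq n (2 * p)) * (ENNReal.ofReal (mq n p ^ 2))⁻¹ := by
    rw [← div_eq_mul_inv, ENNReal.le_div_iff_mul_le (Or.inl (by simpa using h1.ne'))
      (Or.inl ENNReal.ofReal_ne_top), one_mul]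
    exact ENNReal.ofReal_le_ofReal (mq_sq hp.le)
  exact le_mul_of_one_le_right bot_le h4

end

end Pool.Agent.K7.H89.GMC
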