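import Pool.Agent.K7.H89.GMC.M5

/-!
Piece MAIN of the project MP_55470d_pr of helper95: the final assembly.
-/

set_option autoImplicit false

open MeasureTheory Complex Filter Topology ProbabilityTheory
open scoped ENNReal NNReal BoundedContinuousFunction

namespace Pool.Agent.K7.H89.GMC

open Pool.Agent.R923.SE Pool.Agent.K7.H95.GMC

noncomputable section

lemma meas_Xfq {n : ℕ} (hI : S_IND) (hA : S_ARCH) (p : ℝ) (f : C(S2, ℝ)) :
    Measurable fun x : Mt n n × Mt n n => Xf p f (qt x) := by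
  have := (meas_Xf (n := n) hI hA p f).comp meas_qt
  exact this

lemma aem_MF (hI : S_IND) (hA : S_ARCH) {γ : ℝ} (hγ : 0 < γ) (n : ℕ) (f : C(S2, ℝ)) :
    AEMeasurable (fun x : Mt n n × Mt n n => ∫ u, f u ∂(MF γ x : Measure S2)) (gg n) := by
  have h1 : Measurable fun x : Mt n n × Mt n n => Xf (γ / 2) f (qt x) :=
    (meas_Xf hI hA _ f).comp meas_qt
  have h2 : (fun x : Mt n n × Mt n n => ∫ u, f u ∂(MF γ x : Measure S2)) =
      fun x => Xf (γ / 2) f (qt x) := funext fun x => int_MF hI hA hγ f x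
  rw [h2]
  exact h1.aemeasurable

/-- convergence of the characteristic functionals -/
lemma char_MF (hI : S_IND) (hA : S_ARCH) (hC : S_CONV) {γ : ℝ} (hγ : 0 < γ) (hγ2 : γ < 2)
    (f : C(S2, ℝ)) : ∃ c : ℂ, Tendsto (fun n : ℕ => ∫ x : Mt n n × Mt n n,
      cexp (((∫ u, f u ∂(MF γ x : Measure S2) : ℝ) : ℂ) * I) ∂gg n) atTop (𝓝 c) := by
  have hp0 : 0 < γ / 2 := by positivity
  have hp1 : γ / 2 < 1 := by linarith
  have hpm : -1 < γ / 2 := by linarith
  have key := s_DEC (fun n => Mt n n × Mt n n) gg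
    (fun n x => Xf (γ / 2) f (qt x)) (fun n x => yn (γ / 2) x) ‖f‖ ((γ / 2) ^ 2) (by positivity)
    (fun n => ((meas_Xf hI hA _ f).comp meas_qt).aemeasurable)
    (fun n => (meas_yn hI _).aemeasurable)
    (fun n => yn_pos hpm)
    (fun n => indep_yn hI hA _ f)
    (fun n => by
      calc ∫⁻ x, ENNReal.ofReal |Xf (γ / 2) f (qt x)| ∂gg n
          ≤ ∫⁻ x, ENNReal.ofReal ‖f‖ * ENNReal.ofReal (Xf (γ / 2) (1 : C(S2, ℝ)) (qt x)) ∂gg n := by
            refine lintegral_mono fun x => ?_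
            rw [← ENNReal.ofReal_mul (norm_nonneg _)]
            exact ENNReal.ofReal_le_ofReal (Xf_abs hI hA hp0.le f (qt x))
        _ = ENNReal.ofReal ‖f‖ := by
            rw [lintegral_const_mul _ (meas_Xfq hI hA _ 1).ennreal_ofReal,
              lint_Xf_one hI hA hp0.le, mul_one]
        _ ≤ ENNReal.ofReal ‖f‖ := le_rfl)
    (fun s hs hs1 => by
      have h1 := (ENNReal.continuous_ofReal.tendsto _).comp (tendsto_mq hp0 hp1 hs hs1)
      refine h1.congr fun n => ?_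
      rw [Function.comp, mom_yn hI hpm (by nlinarith)])
    (fun t => by
      obtain ⟨c, hc⟩ := (hC (γ / 2) hp0 hp1).1 (t • f)
      refine ⟨c, hc.congr fun n => integral_congr_ae ?_⟩
      filter_upwards [ae_dt2 (n := n)] with x hx
      have e1 : ∫ u, (t • f) u * Nh n (γ / 2) u x ∂nu =
          t * (yn (γ / 2) x * Xf (γ / 2) f (qt x)) := by
        rw [← int_Nh hx hpm, ← integral_const_mul]
        refine integral_congr_ae (Eventually.of_forall fun u => ?_)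
        simp only [ContinuousMap.smul_apply, smul_eq_mul]
        ring
      rw [e1])
  obtain ⟨c, hc⟩ := key 1
  refine ⟨c, hc.congr fun n => integral_congr_ae (Eventually.of_forall fun x => ?_)⟩
  simp only [one_mul]
  rw [int_MF hI hA hγ]

/-- second moments -/
lemma sq_MF (hI : S_IND) (hA : S_ARCH) (hC : S_CONV) {γ : ℝ} (hγ : 0 < γ) (hγ2 : γ < 2)
    (f : C(S2, ℝ)) : ∃ B : ℝ, ∀ n : ℕ, ∫⁻ x : Mt n n × Mt n n,
      ENNReal.ofReal ((∫ u, f u ∂(MF γ x : Measure S2)) ^ 2) ∂gg n ≤ ENNReal.ofReal B := by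
  have hp0 : 0 < γ / 2 := by positivity
  have hp1 : γ / 2 < 1 := by linarith
  obtain ⟨C, hC2⟩ := (hC (γ / 2) hp0 hp1).2
  refine ⟨‖f‖ ^ 2 * C, fun n => ?_⟩
  have h1 := sq_Xf hI hA hp0 (hC2 n)
  calc ∫⁻ x : Mt n n × Mt n n, ENNReal.ofReal ((∫ u, f u ∂(MF γ x : Measure S2)) ^ 2) ∂gg n
      ≤ ∫⁻ x, ENNReal.ofReal (‖f‖ ^ 2) *
        ENNReal.ofReal (Xf (γ / 2) (1 : C(S2, ℝ)) (qt x) ^ 2) ∂gg n := by
        refine lintegral_mono fun x => ?_
        rw [← ENNReal.ofReal_mul (by positivity), int_MF hI hA hγ]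
        refine ENNReal.ofReal_le_ofReal ?_
        rw [← mul_pow, ← sq_abs]
        exact pow_le_pow_left₀ (abs_nonneg _) (Xf_abs hI hA hp0.le f (qt x)) 2
    _ = ENNReal.ofReal (‖f‖ ^ 2) * ∫⁻ x : Mt n n × Mt n n,
        ENNReal.ofReal (Xf (γ / 2) (1 : C(S2, ℝ)) (qt x) ^ 2) ∂gg n := by
        rw [lintegral_const_mul _ ((meas_Xfq hI hA _ 1).pow_const 2).ennreal_ofReal]
    _ ≤ ENNReal.ofReal (‖f‖ ^ 2) * ENNReal.ofReal C := by gcongr
    _ = ENNReal.ofReal (‖f‖ ^ 2 * C) := by rw [ENNReal.ofReal_mul (by positivity)]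

theorem main_of (hI : S_IND) (hA : S_ARCH) (hC : S_CONV) : S_MAIN := by
  intro γ hγ hγ2
  have hp0 : 0 < γ / 2 := by positivity
  obtain ⟨Ω', mΩ', P', hP', G, hG1, hG2, hG3⟩ := s_RM S2 (fun n => Mt n n × Mt n n) gg
    (fun n x => MF γ x) 1 (aem_MF hI hA hγ) (fun n => by rw [mass_eq hI hA hγ]; simp)
    (char_MF hI hA hC hγ hγ2)
  refine ⟨fun n x => isFin hI hA hγ x, hG2, Ω', mΩ', P', hP', G, hG1, hG3, fun f => ?_⟩
  -- the laws of `∫ f dM`
  obtain ⟨B, hB⟩ := sq_MF hI hA hC hγ hγ2 f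
  have hφ : Continuous fun m : FiniteMeasure S2 => ∫ x, f x ∂(m : Measure S2) :=
    RM.continuous_int f
  have hGm : Measurable fun ω => ∫ u, f u ∂(G ω : Measure S2) := by
    letI : MeasurableSpace (FiniteMeasure S2) := borel _
    haveI : BorelSpace (FiniteMeasure S2) := ⟨rfl⟩
    have h1 : Measurable fun m : FiniteMeasure S2 => ∫ x, f x ∂(m : Measure S2) := hφ.measurable
    exact h1.comp hG1
  let μ : ℕ → ProbabilityMeasure ℝ := fun n =>
    ⟨(gg n).map fun x => ∫ u, f u ∂(MF γ x : Measure S2),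
      Measure.isProbabilityMeasure_map (aem_MF hI hA hγ n f)⟩
  let ν : ProbabilityMeasure ℝ := ⟨P'.map fun ω => ∫ u, f u ∂(G ω : Measure S2),
    Measure.isProbabilityMeasure_map hGm.aemeasurable⟩
  have hμν : Tendsto μ atTop (𝓝 ν) := by
    rw [ProbabilityMeasure.tendsto_iff_forall_integral_tendsto]
    intro ψ
    have h1 := hG3 (ψ.compContinuous ⟨_, hφ⟩)
    have h2 : ∀ n, ∫ y, ψ y ∂(μ n : Measure ℝ) = ∫ x : Mt n n × Mt n n,
        ψ (∫ u, f u ∂(MF γ x : Measure S2)) ∂gg n := fun n =>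
      integral_map (aem_MF hI hA hγ n f) ψ.continuous.aestronglyMeasurable
    have h3 : ∫ y, ψ y ∂(ν : Measure ℝ) = ∫ ω, ψ (∫ u, f u ∂(G ω : Measure S2)) ∂P' :=
      integral_map hGm.aemeasurable ψ.continuous.aestronglyMeasurable
    simp only [h2, h3]
    exact h1
  have hsq : ∀ᶠ n in atTop, ∫⁻ y, ENNReal.ofReal (‖((y : ℝ) : ℂ)‖ ^ 2) ∂(μ n : Measure ℝ) ≤
      ENNReal.ofReal B := by
    refine Eventually.of_forall fun n => ?_
    have h1 : ∫⁻ y, ENNReal.ofReal (‖((y : ℝ) : ℂ)‖ ^ 2) ∂(μ n : Measure ℝ) =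
        ∫⁻ x : Mt n n × Mt n n, ENNReal.ofReal (‖(((∫ u, f u ∂(MF γ x : Measure S2)) : ℝ) : ℂ)‖ ^ 2)
          ∂gg n :=
      lintegral_map' (by fun_prop) (aem_MF hI hA hγ n f)
    rw [h1]
    simp only [Complex.norm_real, Real.norm_eq_abs, sq_abs]
    exact hB n
  obtain ⟨i1, i2⟩ := DEC.ui hμν Complex.continuous_ofReal hsq
  have i3 : Integrable (fun y : ℝ => y) (ν : Measure ℝ) := by
    have := i1.re
    simpa using this
  have i4 : Integrable (fun ω => ∫ u, f u ∂(G ω : Measure S2)) P' := by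
    have h1 : Integrable ((fun y : ℝ => y) ∘ fun ω => ∫ u, f u ∂(G ω : Measure S2)) P' :=
      (integrable_map_measure (by fun_prop) hGm.aemeasurable).1 i3
    exact h1
  refine ⟨i4, ?_⟩
  have j1 : ∀ n, ∫ y, ((y : ℝ) : ℂ) ∂(μ n : Measure ℝ) = ((∫ u, f u ∂nu : ℝ) : ℂ) := by
    intro n
    have h1 : ∫ y, ((y : ℝ) : ℂ) ∂(μ n : Measure ℝ) =
        ∫ x : Mt n n × Mt n n, (((∫ u, f u ∂(MF γ x : Measure S2)) : ℝ) : ℂ) ∂gg n :=
      integral_map (aem_MF hI hA hγ n f) (by fun_prop)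
    rw [h1, integral_complex_ofReal]
    congr 1
    rw [← mean_Xf (n := n) hI hA hp0.le f]
    exact integral_congr_ae (Eventually.of_forall fun x => int_MF hI hA hγ f x)
  have j2 : ∫ y, ((y : ℝ) : ℂ) ∂(ν : Measure ℝ) =
      ((∫ ω, ∫ u, f u ∂(G ω : Measure S2) ∂P' : ℝ) : ℂ) := by
    have h1 : ∫ y, ((y : ℝ) : ℂ) ∂(ν : Measure ℝ) =
        ∫ ω, (((∫ u, f u ∂(G ω : Measure S2)) : ℝ) : ℂ) ∂P' :=
      integral_map hGm.aemeasurable (by fun_prop)
    rw [h1, integral_complex_ofReal]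
  simp only [j1, j2] at i2
  have j3 := tendsto_nhds_unique i2 tendsto_const_nhds
  exact_mod_cast j3

end

end Pool.Agent.K7.H89.GMC
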